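import Pool.Agent.V8H53.Ind.Final

/-!
# All bounded functions
-/

set_option autoImplicit false
set_option linter.unusedSectionVars false

open MeasureTheory Filter Topology Set Finset
open scoped ENNReal ComplexConjugate

namespace Pool.Agent.V8H53.Ind

open Pool.Agent.R205.PC (ex fx dd dd_meas dd_bound dd_approx Fresh prod_sub_le)

variable {Y : Type*} [MeasurableSpace Y] {μ : Measure Y} [IsProbabilityMeasure μ] {S : Y → Y}

lemma conv_dd (hS : Ergodic S μ) {ξ : Y → ℕ} (hξ : Measurable ξ) {θ : Om}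
    (hA0 : 0 < μ.real (thin ξ θ)) (D : ℕ → ℕ → Y → ℂ) (hD : ∀ u M, Measurable (D u M))
    (hDb : ∀ u M y, ‖D u M y‖ ≤ M)
    (hθ : ∀ (m : ℕ) (a : Fin m → ℕ) (u : Fin m → ℕ) (M r i : ℕ), StrictMono a →
      (∀ j, 0 < a j) → r < m →
      ∀ᵐ y ∂μ, Tendsto (fun l : ℕ => (1 / ((l ^ 8 : ℕ) : ℂ)) *
      ∑ n ∈ range (l ^ 8), Psi (cy S ξ y) (ex a)
        (fun j => vy S (D (ex u j) M) y)
        (vy S (D (ex u r) M) y) r i (Rl l) n θ)
      atTop (𝓝 0))
    (m : ℕ) (a : Fin m → ℕ) (ha : StrictMono a) (ha0 : ∀ j, 0 < a j) (u : Fin m → ℕ) (M : ℕ) :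
    ∀ᵐ y ∂(μ.restrict (thin ξ θ)), Tendsto (fun N : ℕ => (N : ℂ)⁻¹ * ∑ n ∈ range N,
      ∏ j ∈ range m, D (ex u j) M ((ind S (thin ξ θ))^[ex a j * (n + 1)] y)) atTop
      (𝓝 (∏ j ∈ range m, ((μ.real (thin ξ θ) : ℂ)⁻¹ * ∫ y in thin ξ θ, D (ex u j) M y ∂μ))) := by
  set A := thin ξ θ with hA
  have hAm : MeasurableSet A := meas_thin hξ θ
  have hex : ∀ j (h : j < m), ex a j = a ⟨j, h⟩ := fun j h => by rw [ex, dif_pos h]
  have h1 : ∀ᵐ y ∂(μ.restrict A), ∀ r i : ℕ, r < m → Tendsto (fun l : ℕ => (1 / ((l ^ 8 : ℕ) : ℂ)) *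
      ∑ n ∈ range (l ^ 8), Psi (cy S ξ y) (ex a)
        (fun j => vy S (D (ex u j) M) y)
        (vy S (D (ex u r) M) y) r i (Rl l) n θ) atTop (𝓝 0) := by
    rw [ae_all_iff]; intro r
    rw [ae_all_iff]; intro i
    by_cases hr : r < m
    · filter_upwards [ae_restrict_of_ae (hθ m a u M r i ha ha0 hr)] with y hy _
      exact hy
    · filter_upwards with y h
      exact absurd h hr
  have h2 : ∀ j : ℕ, ∃ δ : ℕ → ℝ, Tendsto δ atTop (𝓝 0) ∧ ∀ᵐ y ∂(μ.restrict A), ∀ L : ℕ,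
      Tendsto (fun N : ℕ => (N : ℝ)⁻¹ * ∑ k ∈ range N,
        ‖((L + 1 : ℕ) : ℂ)⁻¹ * ∑ i ∈ range (L + 1), D (ex u j) M ((ind S A)^[k + i] y) -
          (μ.real A : ℂ)⁻¹ * ∫ y in A, D (ex u j) M y ∂μ‖) atTop (𝓝 (δ L)) := fun j =>
    block_avg hS hAm hA0 (D (ex u j) M) (hD _ _) M (Nat.cast_nonneg M) (hDb _ _)
  choose δ hδ hδy using h2
  filter_upwards [ae_good hS hAm hA0, h1, ae_all_iff.2 hδy] with y hg g1 g2
  refine seq_conv m (ex a) (fun r hr => by rw [hex r hr]; exact ha0 _)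
    (fun j k => D (ex u j) M ((ind S A)^[k] y)) M (Nat.cast_nonneg M) (fun j k => hDb _ _ _) _ ?_ ?_ m le_rfl
  · intro r hr i
    exact convert_seq hA0 hg (ex a) (fun j => D (ex u j) M) M (Nat.cast_nonneg M) (fun j y => hDb _ _ _) r i (g1 r i hr)
  · intro r _
    exact ⟨δ r, hδ r, g2 r⟩

lemma ind_birkR (hS : Ergodic S μ) {A : Set Y} (hA : MeasurableSet A) (hA0 : 0 < μ.real A) (F : Y → ℝ)
    (hF : Measurable F) (C : ℝ) (hC : ∀ y, |F y| ≤ C) :
    ∀ᵐ y ∂(μ.restrict A), Tendsto (fun M : ℕ => (M : ℝ)⁻¹ * ∑ k ∈ range M, F ((ind S A)^[k] y)) atTop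
      (𝓝 ((μ.real A)⁻¹ * ∫ y in A, F y ∂μ)) := by
  have h1 := ind_birk hS hA hA0 (fun y => (F y : ℂ)) (Complex.measurable_ofReal.comp hF) C (by
    intro y
    rw [Complex.norm_real]
    exact hC y)
  filter_upwards [h1] with y hy
  have h2 := (Complex.continuous_re.tendsto _).comp hy
  have e1 : (((μ.real A : ℂ)⁻¹ * ∫ y in A, (F y : ℂ) ∂μ)).re = (μ.real A)⁻¹ * ∫ y in A, F y ∂μ := by
    rw [integral_complex_ofReal]
    rw [← Complex.ofReal_inv, ← Complex.ofReal_mul, Complex.ofReal_re]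
  rw [e1] at h2
  refine h2.congr fun M => ?_
  simp only [Function.comp]
  have e2 : ((M : ℂ)⁻¹ * ∑ k ∈ range M, (F ((ind S A)^[k] y) : ℂ)) =
      (((M : ℝ)⁻¹ * ∑ k ∈ range M, F ((ind S A)^[k] y) : ℝ) : ℂ) := by push_cast; ring
  rw [e2, Complex.ofReal_re]

lemma mean_le {A : Set Y} (hA0 : 0 < μ.real A) (F : Y → ℂ) (C : ℝ) (hC : ∀ y, ‖F y‖ ≤ C) :
    ‖(μ.real A : ℂ)⁻¹ * ∫ y in A, F y ∂μ‖ ≤ C := by
  rw [norm_mul, norm_inv, Complex.norm_real, Real.norm_eq_abs, abs_of_pos hA0]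
  have h1 := norm_setIntegral_le_of_norm_le_const (μ := μ) (s := A) (f := F) (C := C)
    (measure_lt_top μ A) (fun y _ => hC y)
  rw [inv_mul_le_iff₀ hA0, mul_comm]
  exact h1

lemma conv_all [MeasurableSpace.CountablyGenerated Y] (hS : Ergodic S μ) {A : Set Y} (hAm : MeasurableSet A) (hA0 : 0 < μ.real A)
    (m : ℕ) (a : Fin m → ℕ) (ha0 : ∀ j, 0 < a j)
    (h : ∀ (u : Fin m → ℕ) (M : ℕ), ∀ᵐ y ∂(μ.restrict A), Tendsto (fun N : ℕ => (N : ℂ)⁻¹ * ∑ n ∈ range N,
      ∏ j ∈ range m, dd μ (ex u j) M ((ind S A)^[ex a j * (n + 1)] y)) atTop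
      (𝓝 (∏ j ∈ range m, ((μ.real A : ℂ)⁻¹ * ∫ y in A, dd μ (ex u j) M y ∂μ))))
    (f : ℕ → Y → ℂ) (hf : ∀ j, Measurable (f j)) (C : ℝ) (hC : ∀ j y, ‖f j y‖ ≤ C) :
    ∀ᵐ y ∂(μ.restrict A), Tendsto (fun N : ℕ => (N : ℂ)⁻¹ * ∑ n ∈ range N,
      ∏ j ∈ range m, f j ((ind S A)^[ex a j * (n + 1)] y)) atTop
      (𝓝 (∏ j ∈ range m, ((μ.real A : ℂ)⁻¹ * ∫ y in A, f j y ∂μ))) := by
  set α := μ.real A with hα
  set T := ind S A with hT
  have hex : ∀ j (h : j < m), ex a j = a ⟨j, h⟩ := fun j h => by rw [ex, dif_pos h]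
  set M : ℕ := ⌈max C 0⌉₊ + 1 with hM
  have hCM : max C 0 + 1 ≤ (M : ℝ) := by
    rw [hM]; push_cast
    have := Nat.le_ceil (max C 0)
    linarith
  have hM1 : (1 : ℝ) ≤ M := by
    have : (0 : ℝ) ≤ max C 0 := le_max_right _ _
    linarith
  have hM0 : (0:ℝ) ≤ M := by linarith
  have hfM : ∀ j y, ‖f j y‖ ≤ M := fun j y => ((hC j y).trans (le_max_left _ _)).trans (by linarith)
  have happ : ∀ (k : ℕ) (j : Fin m), ∃ u, ∫ z, ‖f j z - dd μ u M z‖ ∂μ ≤ 1 / ((k : ℝ) + 1) := fun k j =>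
    dd_approx μ (f j) (hf j) (max C 0) (le_max_right _ _) (fun z => (hC _ z).trans (le_max_left _ _)) M hCM
      _ (by positivity)
  choose u hu using happ
  set e : ℕ → ℕ → Y → ℝ := fun k j y => ‖f j y - dd μ (ex (u k) j) M y‖ with he
  have em : ∀ k j, Measurable (e k j) := fun k j => ((hf j).sub (dd_meas _ _ _)).norm
  have eb : ∀ k j y, |e k j y| ≤ M + M := by
    intro k j y
    rw [he]; simp only; rw [abs_of_nonneg (norm_nonneg _)]
    exact (norm_sub_le _ _).trans (add_le_add (hfM _ _) (dd_bound _ _ _ _))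
  set δ : ℕ → ℕ → ℝ := fun k j => α⁻¹ * ∫ y in A, e k j y ∂μ with hδ
  have hδle : ∀ k, ∀ j < m, δ k j ≤ α⁻¹ * (1 / ((k : ℝ) + 1)) := by
    intro k j hj
    rw [hδ]
    apply mul_le_mul_of_nonneg_left _ (by positivity)
    refine le_trans (setIntegral_le_integral ?_ (Eventually.of_forall fun y => norm_nonneg _)) ?_
    · exact Integrable.of_bound (em k j).aestronglyMeasurable (M + M) (Eventually.of_forall fun y => by
        rw [Real.norm_eq_abs]; exact eb k j y)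
    · have := hu k ⟨j, hj⟩
      rw [he]
      simp only
      have e1 : ex (u k) j = u k ⟨j, hj⟩ := by rw [ex, dif_pos hj]
      rw [e1]
      exact this
  have hcc : ∀ k j, ‖α⁻¹ * (∫ y in A, f j y ∂μ) - (α : ℂ)⁻¹ * ∫ y in A, dd μ (ex (u k) j) M y ∂μ‖ ≤ δ k j := by
    intro k j
    have hi1 : Integrable (f j) (μ.restrict A) := Integrable.of_bound (hf j).aestronglyMeasurable M
      (Eventually.of_forall fun y => hfM _ _)
    have hi2 : Integrable (dd μ (ex (u k) j) M) (μ.restrict A) := Integrable.of_bound (dd_meas _ _ _).aestronglyMeasurable M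
      (Eventually.of_forall fun y => dd_bound _ _ _ _)
    rw [Complex.ofReal_inv, ← mul_sub, ← integral_sub hi1 hi2, norm_mul, norm_inv, Complex.norm_real, Real.norm_eq_abs,
      abs_of_pos hA0]
    apply mul_le_mul_of_nonneg_left _ (by positivity)
    exact norm_integral_le_integral_norm _
  have A1 : ∀ᵐ y ∂(μ.restrict A), ∀ k, Tendsto (fun N : ℕ => (N : ℂ)⁻¹ * ∑ n ∈ range N,
      ∏ j ∈ range m, dd μ (ex (u k) j) M (T^[ex a j * (n + 1)] y)) atTop
      (𝓝 (∏ j ∈ range m, ((α : ℂ)⁻¹ * ∫ y in A, dd μ (ex (u k) j) M y ∂μ))) := by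
    rw [ae_all_iff]; intro k; exact h (u k) M
  have A2 : ∀ᵐ y ∂(μ.restrict A), ∀ k j, Tendsto (fun N : ℕ => (N : ℝ)⁻¹ * ∑ n ∈ range N, e k j (T^[n] y)) atTop
      (𝓝 (δ k j)) := by
    rw [ae_all_iff]; intro k; rw [ae_all_iff]; intro j
    exact ind_birkR hS hAm hA0 (e k j) (em k j) _ (eb k j)
  filter_upwards [A1, A2] with y B1 B2
  rw [Metric.tendsto_atTop]
  intro ε hε
  set W : ℝ := (M : ℝ) ^ m * ∑ j ∈ range m, ((ex a j : ℝ) + 1) * α⁻¹ with hW
  have hW0 : 0 ≤ W := by positivity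
  obtain ⟨k, hk⟩ := exists_nat_gt (W * (4 / ε))
  have hkW : W * (1 / ((k : ℝ) + 1)) < ε / 4 := by
    rw [mul_one_div, div_lt_iff₀ (by positivity)]
    have h1 : W * (4 / ε) < k + 1 := by linarith
    have h2 : W < (k + 1) * (ε / 4) := by
      rw [← div_lt_iff₀ (by positivity)]
      calc W / (ε / 4) = W * (4 / ε) := by field_simp
        _ < k + 1 := h1
    linarith
  set η : ℝ := ε / (4 * ((M : ℝ) ^ m * (m + 1))) with hη
  have hη0 : 0 < η := by
    rw [hη]
    have : (0:ℝ) < (M : ℝ) ^ m := by positivity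
    positivity
  have ev1 : ∀ᶠ N : ℕ in atTop, ∀ j < m, (N : ℝ)⁻¹ * ∑ n ∈ range N, e k j (T^[ex a j * (n + 1)] y) ≤ ex a j * δ k j + η := by
    have : ∀ᶠ N : ℕ in atTop, ∀ j ∈ range m, (N : ℝ)⁻¹ * ∑ n ∈ range N, e k j (T^[ex a j * (n + 1)] y) ≤ ex a j * δ k j + η := by
      rw [Filter.eventually_all_finset]
      intro j hj
      rw [Finset.mem_range] at hj
      exact avg_sub (fun n => e k j (T^[n] y)) (fun n => norm_nonneg _) (δ k j) (B2 k j) (ex a j)
        (by rw [hex j hj]; exact ha0 _) η hη0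
    filter_upwards [this] with N hN j hj
    exact hN j (Finset.mem_range.2 hj)
  obtain ⟨N1, hN1⟩ := eventually_atTop.1 ev1
  obtain ⟨N2, hN2⟩ := (Metric.tendsto_atTop.1 (B1 k)) (ε / 4) (by positivity)
  refine ⟨max N1 N2, fun N hN => ?_⟩
  have g1 := hN1 N (le_trans (le_max_left _ _) hN)
  have g2 := hN2 N (le_trans (le_max_right _ _) hN)
  set P := ∏ j ∈ range m, ((α : ℂ)⁻¹ * ∫ y in A, f j y ∂μ) with hP
  set Pk := ∏ j ∈ range m, ((α : ℂ)⁻¹ * ∫ y in A, dd μ (ex (u k) j) M y ∂μ) with hPk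
  set a1 := (N : ℂ)⁻¹ * ∑ n ∈ range N, ∏ j ∈ range m, f j (T^[ex a j * (n + 1)] y) with ha1
  set a2 := (N : ℂ)⁻¹ * ∑ n ∈ range N, ∏ j ∈ range m, dd μ (ex (u k) j) M (T^[ex a j * (n + 1)] y) with ha2
  have E1 : ‖a1 - a2‖ ≤ (M : ℝ) ^ m * ∑ j ∈ range m, ((ex a j : ℝ) * δ k j + η) := by
    rw [ha1, ha2, ← mul_sub, ← Finset.sum_sub_distrib, norm_mul, norm_inv, Complex.norm_natCast]
    calc (N : ℝ)⁻¹ * ‖∑ n ∈ range N, (∏ j ∈ range m, f j (T^[ex a j * (n + 1)] y) -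
          ∏ j ∈ range m, dd μ (ex (u k) j) M (T^[ex a j * (n + 1)] y))‖
        ≤ (N : ℝ)⁻¹ * ∑ n ∈ range N, ((M : ℝ) ^ m * ∑ j ∈ range m, e k j (T^[ex a j * (n + 1)] y)) := by
          apply mul_le_mul_of_nonneg_left _ (by positivity)
          refine norm_sum_le_of_le _ fun n _ => ?_
          exact prod_sub_le (M : ℝ) hM1 m (fun j => f j (T^[ex a j * (n + 1)] y))
            (fun j => dd μ (ex (u k) j) M (T^[ex a j * (n + 1)] y)) (fun j => hfM _ _) (fun j => dd_bound _ _ _ _)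
      _ = (M : ℝ) ^ m * ∑ j ∈ range m, (N : ℝ)⁻¹ * ∑ n ∈ range N, e k j (T^[ex a j * (n + 1)] y) := by
          rw [← Finset.mul_sum, Finset.sum_comm, mul_left_comm, Finset.mul_sum]
      _ ≤ (M : ℝ) ^ m * ∑ j ∈ range m, ((ex a j : ℝ) * δ k j + η) := by
          apply mul_le_mul_of_nonneg_left _ (by positivity)
          exact Finset.sum_le_sum fun j hj => g1 j (Finset.mem_range.1 hj)
  have E2 : ‖Pk - P‖ ≤ (M : ℝ) ^ m * ∑ j ∈ range m, δ k j := by
    rw [norm_sub_rev]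
    refine (prod_sub_le (M : ℝ) hM1 m (fun j => (α : ℂ)⁻¹ * ∫ y in A, f j y ∂μ)
      (fun j => (α : ℂ)⁻¹ * ∫ y in A, dd μ (ex (u k) j) M y ∂μ) (fun j => mean_le hA0 _ _ (hfM j))
      (fun j => mean_le hA0 _ _ (dd_bound _ _ _))).trans ?_
    apply mul_le_mul_of_nonneg_left _ (by positivity)
    refine Finset.sum_le_sum fun j _ => ?_
    have := hcc k j
    rw [Complex.ofReal_inv] at this
    exact this
  have E3 : (M : ℝ) ^ m * ∑ j ∈ range m, ((ex a j : ℝ) * δ k j + η) + (M : ℝ) ^ m * ∑ j ∈ range m, δ k j ≤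
      W * (1 / ((k : ℝ) + 1)) + (M : ℝ) ^ m * (m * η) := by
    rw [← mul_add, ← Finset.sum_add_distrib, hW, mul_assoc, ← mul_add]
    apply mul_le_mul_of_nonneg_left _ (by positivity)
    rw [Finset.sum_mul]
    have : (m : ℝ) * η = ∑ j ∈ range m, η := by simp
    rw [this, ← Finset.sum_add_distrib]
    refine Finset.sum_le_sum fun j hj => ?_
    have h3 := hδle k j (Finset.mem_range.1 hj)
    have h4 : (0:ℝ) ≤ ex a j := Nat.cast_nonneg _
    nlinarith
  have E4 : (M : ℝ) ^ m * (m * η) ≤ ε / 4 := by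
    rw [hη]
    have h5 : (0:ℝ) < (M : ℝ) ^ m := by positivity
    rw [← mul_assoc, mul_div_assoc', div_le_div_iff₀ (by positivity) (by positivity)]
    have h6 : (0:ℝ) ≤ m := Nat.cast_nonneg _
    nlinarith [mul_pos h5 hε]
  rw [dist_eq_norm] at g2 ⊢
  calc ‖a1 - P‖ = ‖(a1 - a2) + (a2 - Pk) + (Pk - P)‖ := by congr 1; ring
    _ ≤ ‖a1 - a2‖ + ‖a2 - Pk‖ + ‖Pk - P‖ := (norm_add_le _ _).trans (add_le_add (norm_add_le _ _) le_rfl)
    _ < ε := by linarith

/-- the induced map is ergodic -/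
theorem ind_ergodic (hS : Ergodic S μ) {A : Set Y} (hAm : MeasurableSet A) (hA0 : 0 < μ.real A) :
    Ergodic (ind S A) (μ.restrict A) := by
  set T := ind S A with hT
  have hTm : Measurable T := meas_ind hS.measurable hAm
  have hμA : μ A ≠ 0 := by
    intro h
    rw [Measure.real, h] at hA0
    simp at hA0
  have hne : (μ.restrict A) ≠ 0 := by
    rw [Ne, Measure.restrict_eq_zero]; exact hμA
  have : NeBot (ae (μ.restrict A)) := ae_neBot.2 hne
  -- invariance of the integral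
  have hint : ∀ B : Set Y, MeasurableSet B → (μ.restrict A) (T ⁻¹' B) = (μ.restrict A) B := by
    intro B hB
    set F : Y → ℝ := B.indicator fun _ => (1:ℝ) with hF
    have hFm : Measurable F := measurable_const.indicator hB
    have hFb : ∀ y, |F y| ≤ 1 := by
      intro y
      by_cases h : y ∈ B <;> simp [hF, h]
    have h1 := ind_birkR hS hAm hA0 F hFm 1 hFb
    have h2 := ind_birkR hS hAm hA0 (fun y => F (T y)) (hFm.comp hTm) 1 (fun y => hFb _)
    obtain ⟨y, hy1, hy2⟩ := (h1.and h2).exists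
    have h3 : Tendsto (fun M : ℕ => (M : ℝ)⁻¹ * ∑ k ∈ range M, F (T (T^[k] y)) -
        (M : ℝ)⁻¹ * ∑ k ∈ range M, F (T^[k] y)) atTop (𝓝 0) := by
      have h4 : Tendsto (fun M : ℕ => (M : ℝ)⁻¹ * 2) atTop (𝓝 0) := by
        have := (tendsto_inv_atTop_nhds_zero_nat (𝕜 := ℝ)).mul_const (2 : ℝ)
        simpa using this
      refine squeeze_zero_norm (fun M => ?_) h4
      rw [← mul_sub, ← Finset.sum_sub_distrib]
      have h5 : ∑ k ∈ range M, (F (T (T^[k] y)) - F (T^[k] y)) = F (T^[M] y) - F (T^[0] y) := by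
        rw [← Finset.sum_range_sub (fun k => F (T^[k] y))]
        refine Finset.sum_congr rfl fun k _ => ?_
        rw [Function.iterate_succ_apply']
      rw [h5, norm_mul, norm_inv, Real.norm_natCast]
      apply mul_le_mul_of_nonneg_left _ (by positivity)
      rw [Real.norm_eq_abs]
      have := hFb (T^[M] y)
      have := hFb (T^[0] y)
      have := abs_sub (F (T^[M] y)) (F (T^[0] y))
      linarith
    have h6 := tendsto_nhds_unique h3 (hy2.sub hy1)
    have h7 : ∫ y in A, F (T y) ∂μ = ∫ y in A, F y ∂μ := by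
      have h8 : (μ.real A)⁻¹ * ∫ y in A, F (T y) ∂μ = (μ.real A)⁻¹ * ∫ y in A, F y ∂μ := by linarith
      exact mul_left_cancel₀ (inv_ne_zero hA0.ne') h8
    have h9 : ∫ y in A, F y ∂μ = (μ.restrict A).real B := by
      rw [hF, integral_indicator_const _ hB]; simp
    have h10 : ∫ y in A, F (T y) ∂μ = (μ.restrict A).real (T ⁻¹' B) := by
      have : (fun y => F (T y)) = (T ⁻¹' B).indicator fun _ => (1:ℝ) := by
        ext y
        by_cases h : T y ∈ B
        · rw [hF, Set.indicator_of_mem h, Set.indicator_of_mem (show y ∈ T ⁻¹' B from h)]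
        · rw [hF, Set.indicator_of_notMem h, Set.indicator_of_notMem (show y ∉ T ⁻¹' B from h)]
      rw [this, integral_indicator_const _ (hTm hB)]; simp
    rw [h9, h10] at h7
    exact (measureReal_eq_measureReal_iff).1 h7
  refine { measurable := hTm, map_eq := ?_, aeconst_set := ?_ }
  · ext B hB
    rw [Measure.map_apply hTm hB, hint B hB]
  · intro s hs hinv
    set F : Y → ℝ := s.indicator fun _ => (1:ℝ) with hF
    have hFm : Measurable F := measurable_const.indicator hs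
    have hFb : ∀ y, |F y| ≤ 1 := by
      intro y
      by_cases h : y ∈ s <;> simp [hF, h]
    have h1 := ind_birkR hS hAm hA0 F hFm 1 hFb
    have hFT : ∀ y, F (T y) = F y := by
      intro y
      have h2 : T y ∈ s ↔ y ∈ s := by
        constructor
        · intro h; rw [← hinv]; exact h
        · intro h; rw [← hinv] at h; exact h
      by_cases h : y ∈ s
      · rw [hF, Set.indicator_of_mem h, Set.indicator_of_mem (h2.2 h)]
      · rw [hF, Set.indicator_of_notMem h, Set.indicator_of_notMem (fun h' => h (h2.1 h'))]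
    have hFk : ∀ k y, F (T^[k] y) = F y := by
      intro k
      induction k with
      | zero => intro y; rfl
      | succ k ih => intro y; rw [Function.iterate_succ_apply, ih, hFT]
    have h3 : ∀ᵐ y ∂(μ.restrict A), F y = (μ.real A)⁻¹ * ∫ y in A, F y ∂μ := by
      filter_upwards [h1] with y hy
      have h4 : Tendsto (fun M : ℕ => (M : ℝ)⁻¹ * ∑ k ∈ range M, F (T^[k] y)) atTop (𝓝 (F y)) := by
        refine tendsto_const_nhds.congr' ?_
        filter_upwards [eventually_ge_atTop 1] with M hM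
        have hM0 : (M : ℝ) ≠ 0 := by
          have : M ≠ 0 := by omega
          exact_mod_cast this
        simp only [hFk, Finset.sum_const, Finset.card_range, nsmul_eq_mul]
        field_simp
      exact tendsto_nhds_unique h4 hy
    rw [eventuallyConst_set]
    by_cases h5 : (μ.real A)⁻¹ * ∫ y in A, F y ∂μ = 1
    · left
      filter_upwards [h3] with y hy
      rw [h5] at hy
      by_contra hcon
      rw [hF, Set.indicator_of_notMem hcon] at hy
      norm_num at hy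
    · right
      filter_upwards [h3] with y hy
      intro hcon
      rw [hF, Set.indicator_of_mem hcon, ← hF] at hy
      exact h5 hy.symm

end Pool.Agent.V8H53.Ind
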