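import Pool.Agent.V8H53.Ind.Asm
import Pool.Agent.R205.PC.Label

/-!
# The kept set has positive measure; the final statements
-/

set_option autoImplicit false
set_option linter.unusedSectionVars false

open MeasureTheory Filter Topology Set Finset
open scoped ENNReal ComplexConjugate

namespace Pool.Agent.V8H53.Ind

open Pool.Agent.R205.PC (ex fx dd dd_meas dd_bound dd_approx Fresh prod_sub_le)

lemma all_false_null (ν : Measure Bool) [IsProbabilityMeasure ν] (hq : ν {false} < 1) (c : ℕ → ℕ)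
    (hf : FreshSeq c) : (PP ν) {θ : Om | ∀ t, θ (c t) = false} = 0 := by
  have key : ∀ l : ℕ, 64 ≤ l → (PP ν) {θ : Om | ∀ t, θ (c t) = false} ≤ (ν {false}) ^ l := by
    intro l hl
    obtain ⟨T, hT1, hT2, hT3⟩ := blocks_of_fresh c hf l hl 0 (by positivity)
    have hinj : Set.InjOn c T := by
      intro t ht s hs hts
      by_contra hne
      have h1 := (hT2 s hs).2
      have h2 : (0 + 2) * Gl l ≤ (l ^ 5 + 1) * Gl l := by
        apply Nat.mul_le_mul_right
        have : 1 ≤ l ^ 5 := Nat.one_le_pow _ _ (by omega)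
        omega
      exact hT3 t ht s (by omega) (fun h => hne h.symm) hts.symm
    have hcard : #(T.image c) = l ^ 4 := by rw [Finset.card_image_of_injOn hinj, hT1]
    have hsub : {θ : Om | ∀ t, θ (c t) = false} ⊆ Set.pi (T.image c) (fun _ => {false}) := by
      intro θ hθ i hi
      obtain ⟨t, _, rfl⟩ := Finset.mem_image.1 (Finset.mem_coe.1 hi)
      exact hθ t
    calc (PP ν) {θ : Om | ∀ t, θ (c t) = false} ≤ (PP ν) (Set.pi (T.image c) (fun _ => {false})) := measure_mono hsub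
      _ = ∏ _i ∈ T.image c, ν {false} := Measure.infinitePi_pi _ (fun _ _ => measurableSet_singleton _)
      _ = (ν {false}) ^ (l ^ 4) := by rw [Finset.prod_const, hcard]
      _ ≤ (ν {false}) ^ l := by
          apply pow_le_pow_of_le_one zero_le hq.le
          calc l = l ^ 1 := (pow_one l).symm
            _ ≤ l ^ 4 := Nat.pow_le_pow_right (by omega) (by norm_num)
  have h0 := ENNReal.tendsto_pow_atTop_nhds_zero_of_lt_one hq
  have : (PP ν) {θ : Om | ∀ t, θ (c t) = false} ≤ 0 := by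
    refine ge_of_tendsto h0 ?_
    filter_upwards [eventually_ge_atTop 64] with l hl
    exact key l hl
  exact le_antisymm this zero_le

variable {Y : Type*} [MeasurableSpace Y] {μ : Measure Y} [IsProbabilityMeasure μ] {S : Y → Y}

lemma ae_pos (ν : Measure Bool) [IsProbabilityMeasure ν] (hq : ν {false} < 1) (hS : MeasurePreserving S μ μ)
    {ξ : Y → ℕ} (hξ : Measurable ξ) (hfr : ∀ᵐ y ∂μ, Fresh S ξ y) :
    ∀ᵐ θ ∂(PP ν), 0 < μ.real (thin ξ θ) := by
  have hset : MeasurableSet {w : Om × Y | ∃ t, w.1 (cy S ξ w.2 t) = true} := by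
    have : {w : Om × Y | ∃ t, w.1 (cy S ξ w.2 t) = true} = ⋃ t, {w : Om × Y | w.1 (cy S ξ w.2 t) = true} := by
      ext w; simp
    rw [this]
    exact MeasurableSet.iUnion fun t => meas_bit2 S ξ hS.measurable hξ t
  have h1 : ∀ᵐ θ ∂(PP ν), ∀ᵐ y ∂μ, ∃ t, θ (cy S ξ y t) = true := by
    rw [Measure.ae_ae_comm hset]
    filter_upwards [hfr] with y hy
    rw [ae_iff]
    have h2 := all_false_null ν hq (cy S ξ y) hy
    convert h2 using 2
    ext θ
    simp
  filter_upwards [h1] with θ hθ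
  by_contra hcon
  have h3 : μ (thin ξ θ) = 0 := by
    have h4 : μ.real (thin ξ θ) = 0 := le_antisymm (not_lt.1 hcon) measureReal_nonneg
    exact (measureReal_eq_zero_iff).1 h4
  have h5 : ∀ᵐ y ∂μ, ∀ t, S^[t] y ∉ thin ξ θ := by
    rw [ae_all_iff]
    intro t
    exact (hS.iterate t).quasiMeasurePreserving.ae (measure_eq_zero_iff_ae_notMem.1 h3)
  obtain ⟨y, hy1, hy2⟩ := (hθ.and h5).exists
  obtain ⟨t, ht⟩ := hy1
  exact hy2 t ht

lemma pos_big (ν : Measure Bool) [IsProbabilityMeasure ν] {ξ : Y → ℕ} (hξ : Measurable ξ) :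
    0 < (PP ν) {θ | ν {true} ≤ μ (thin ξ θ)} := by
  have hE : MeasurableSet {w : Om × Y | w.1 (ξ w.2) = true} := by
    have := meas_bit2 (id : Y → Y) ξ measurable_id hξ 0
    simpa [cy] using this
  have h1 := Measure.prod_apply (μ := PP ν) (ν := μ) hE
  have h2 := Measure.prod_apply_symm (μ := PP ν) (ν := μ) hE
  have e1 : ∀ θ : Om, μ (Prod.mk θ ⁻¹' {w : Om × Y | w.1 (ξ w.2) = true}) = μ (thin ξ θ) := fun θ => rfl
  have e2 : ∀ y : Y, (PP ν) ((fun θ => (θ, y)) ⁻¹' {w : Om × Y | w.1 (ξ w.2) = true}) = ν {true} := by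
    intro y
    have : ((fun θ : Om => (θ, y)) ⁻¹' {w : Om × Y | w.1 (ξ w.2) = true}) =
        Set.pi (({ξ y} : Finset ℕ) : Set ℕ) (fun _ => {true}) := by
      ext θ; simp
    rw [this, Measure.infinitePi_pi _ (fun _ _ => measurableSet_singleton _), Finset.prod_singleton]
  simp only [e1] at h1
  simp only [e2] at h2
  rw [lintegral_const, measure_univ, mul_one] at h2
  have h3 : ∫⁻ θ, μ (thin ξ θ) ∂(PP ν) = ν {true} := by rw [← h1, h2]
  have h4 := measure_lintegral_le_pos (μ := PP ν) (f := fun θ => μ (thin ξ θ)) (by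
    rw [h3]; exact measure_ne_top _ _)
  rw [h3] at h4
  exact h4

lemma sum_Icc_shift (N : ℕ) (z : ℕ → ℂ) : ∑ n ∈ Finset.Icc 1 N, z n = ∑ n ∈ range N, z (n + 1) := by
  rw [Finset.range_eq_Ico, Finset.sum_Ico_add' z 0 N 1]
  rfl

/-- all the averages, all exponents, all functions -/
theorem main [MeasurableSpace.CountablyGenerated Y] (ν : Measure Bool) [IsProbabilityMeasure ν]
    (hp : 0 < ν {true}) (hq : 0 < ν {false}) (hS : Ergodic S μ)
    {ξ : Y → ℕ} (hξ : Measurable ξ) (hfr : ∀ᵐ y ∂μ, Fresh S ξ y) :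
    ∀ᵐ θ ∂(PP ν), 0 < μ.real (thin ξ θ) ∧ Ergodic (ind S (thin ξ θ)) (μ.restrict (thin ξ θ)) ∧
      ∀ (m : ℕ) (a : Fin m → ℕ), StrictMono a → (∀ j, 0 < a j) → ∀ f : Fin m → Y → ℂ,
        (∀ j, Measurable (f j)) → (∃ C : ℝ, ∀ j y, ‖f j y‖ ≤ C) →
        ∀ᵐ y ∂(μ.restrict (thin ξ θ)), Tendsto (fun N : ℕ => (N : ℂ)⁻¹ * ∑ n ∈ Finset.Icc 1 N,
          ∏ j, f j ((ind S (thin ξ θ))^[a j * n] y)) atTop
          (𝓝 (∏ j, ((μ.real (thin ξ θ) : ℂ)⁻¹ * ∫ y in thin ξ θ, f j y ∂μ))) := by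
  have hpr0 : 0 < pr ν := by
    unfold pr
    exact ENNReal.toReal_pos hp.ne' (measure_ne_top _ _)
  have hpr1 : pr ν < 1 := by
    have h1 : 0 < ν.real {false} := ENNReal.toReal_pos hq.ne' (measure_ne_top _ _)
    rw [false_eq] at h1
    linarith
  have hf1 : ν {false} < 1 := by
    have h1 : ν.real {false} < 1 := by rw [false_eq]; linarith
    rw [Measure.real] at h1
    exact (ENNReal.toReal_lt_toReal (measure_ne_top _ _) ENNReal.one_ne_top).1 (by simpa using h1)
  filter_upwards [ae_pos ν hf1 hS.toMeasurePreserving hξ hfr,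
    ae_theta_all S ξ ν hpr0 hpr1 μ hS.measurable hξ hfr (dd μ) (dd_meas μ) (dd_bound μ)] with θ hA0 hθ
  refine ⟨hA0, ind_ergodic hS (meas_thin hξ θ) hA0, ?_⟩
  intro m a ha ha0 f hf hfb
  obtain ⟨C, hC⟩ := hfb
  have hdd := conv_dd hS hξ hA0 (dd μ) (dd_meas μ) (dd_bound μ) hθ m a ha ha0
  have hfxm : ∀ j, Measurable (fx f j) := by
    intro j
    unfold fx
    split_ifs with h
    · exact hf _
    · exact measurable_const
  have hfxb : ∀ j z, ‖fx f j z‖ ≤ max C 0 := by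
    intro j z
    unfold fx
    split_ifs with h
    · exact (hC _ z).trans (le_max_left _ _)
    · rw [norm_zero]; exact le_max_right _ _
  have h1 := conv_all hS (meas_thin hξ θ) hA0 m a ha0 hdd (fx f) hfxm (max C 0) hfxb
  have e0 : ∀ j : Fin m, fx f j = f j := fun j => by
    unfold fx; rw [dif_pos j.2]
  have e1 : ∀ j : Fin m, ex a j = a j := fun j => by
    unfold ex; rw [dif_pos j.2]
  filter_upwards [h1] with y hy
  have h2 : (∏ j ∈ range m, ((μ.real (thin ξ θ) : ℂ)⁻¹ * ∫ y in thin ξ θ, fx f j y ∂μ)) =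
      ∏ j : Fin m, ((μ.real (thin ξ θ) : ℂ)⁻¹ * ∫ y in thin ξ θ, f j y ∂μ) := by
    rw [← Fin.prod_univ_eq_prod_range (fun j => (μ.real (thin ξ θ) : ℂ)⁻¹ * ∫ y in thin ξ θ, fx f j y ∂μ) m]
    refine Finset.prod_congr rfl fun j _ => ?_
    rw [e0 j]
  rw [h2] at hy
  refine hy.congr fun N => ?_
  rw [sum_Icc_shift]
  congr 1
  refine Finset.sum_congr rfl fun n _ => ?_
  rw [← Fin.prod_univ_eq_prod_range (fun j => fx f j ((ind S (thin ξ θ))^[ex a j * (n + 1)] y)) m]
  refine Finset.prod_congr rfl fun j _ => ?_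
  rw [e0 j, e1 j]

end Pool.Agent.V8H53.Ind
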