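import Pool.Agent.V8H53.Ind.Pair

/-!
# Second moments and almost sure convergence along eighth powers
-/

set_option autoImplicit false
set_option linter.unusedSectionVars false

open MeasureTheory Filter Topology Set Finset
open scoped ENNReal ComplexConjugate

namespace Pool.Agent.V8H53.Ind

lemma ae_tendsto {Ω : Type*} [MeasurableSpace Ω] (P : Measure Ω) [IsProbabilityMeasure P]
    (Z : ℕ → Ω → ℂ) (hZ : ∀ l, Measurable (Z l)) (C : ℝ) (hC : ∀ l ω, ‖Z l ω‖ ≤ C)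
    (A : ℝ) (hA : ∀ᶠ l : ℕ in atTop, ∫ ω, ‖Z l ω‖ ^ 2 ∂P ≤ A * (1 / (l : ℝ) ^ 2)) :
    ∀ᵐ ω ∂P, Tendsto (fun l => Z l ω) atTop (𝓝 0) := by
  obtain ⟨l0, hl0⟩ := eventually_atTop.1 hA
  set G : ℕ → Ω → ℝ≥0∞ := fun l ω => ENNReal.ofReal (‖Z (l + l0) ω‖ ^ 2) with hG
  have hGm : ∀ l, Measurable (G l) := fun l => ((hZ _).norm.pow_const 2).ennreal_ofReal
  have hint : ∀ l, Integrable (fun ω => ‖Z l ω‖ ^ 2) P := by
    intro l
    refine Integrable.of_bound ((hZ l).norm.pow_const 2).aestronglyMeasurable (C ^ 2) ?_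
    filter_upwards with ω
    rw [Real.norm_eq_abs, abs_pow, abs_norm]
    exact pow_le_pow_left₀ (norm_nonneg _) (hC l ω) 2
  have hGi : ∀ l, ∫⁻ ω, G l ω ∂P ≤ ENNReal.ofReal (A * (1 / ((l + l0 : ℕ) : ℝ) ^ 2)) := by
    intro l
    rw [hG]
    simp only
    rw [← ofReal_integral_eq_lintegral_ofReal (hint _) (Eventually.of_forall fun ω => by positivity)]
    exact ENNReal.ofReal_le_ofReal (hl0 _ (by omega))
  have hsum : Summable (fun l : ℕ => A * (1 / ((l + l0 : ℕ) : ℝ) ^ 2)) := by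
    have h1 : Summable (fun l : ℕ => 1 / (l : ℝ) ^ 2) := Real.summable_one_div_nat_pow.2 (by norm_num)
    exact ((summable_nat_add_iff l0).2 h1).mul_left A
  have hA0 : ∀ l, 0 ≤ A * (1 / ((l + l0 : ℕ) : ℝ) ^ 2) := fun l =>
    le_trans (integral_nonneg fun ω => by positivity) (hl0 (l + l0) (by omega))
  have hfin : ∫⁻ ω, ∑' l, G l ω ∂P ≠ ∞ := by
    rw [lintegral_tsum (fun l => (hGm l).aemeasurable)]
    refine ne_top_of_le_ne_top ?_ (ENNReal.tsum_le_tsum hGi)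
    rw [← ENNReal.ofReal_tsum_of_nonneg hA0 hsum]
    exact ENNReal.ofReal_ne_top
  have hae := ae_lt_top (Measurable.tsum hGm) hfin
  filter_upwards [hae] with ω hω
  have h1 : Tendsto (fun l => G l ω) atTop (𝓝 0) := ENNReal.tendsto_atTop_zero_of_tsum_ne_top hω.ne
  have h2 : Tendsto (fun l => (G l ω).toReal) atTop (𝓝 0) := by
    have := (ENNReal.tendsto_toReal ENNReal.zero_ne_top).comp h1
    rw [ENNReal.toReal_zero] at this
    exact this
  have h3 : Tendsto (fun l => ‖Z (l + l0) ω‖ ^ 2) atTop (𝓝 0) := by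
    refine h2.congr fun l => ?_
    rw [hG]
    simp only
    rw [ENNReal.toReal_ofReal (by positivity)]
  have h4 : Tendsto (fun l => ‖Z (l + l0) ω‖) atTop (𝓝 0) := by
    have := (Real.continuous_sqrt.tendsto 0).comp h3
    rw [Real.sqrt_zero] at this
    refine this.congr fun l => ?_
    simp only [Function.comp]
    rw [Real.sqrt_sq (norm_nonneg _)]
  have h5 : Tendsto (fun l => Z (l + l0) ω) atTop (𝓝 0) := tendsto_zero_iff_norm_tendsto_zero.2 h4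
  exact (tendsto_add_atTop_iff_nat l0).1 h5

variable (c : ℕ → ℕ)

/-- the terms -/
noncomputable def Psi (a : ℕ → ℕ) (h : ℕ → ℕ → ℂ) (g : ℕ → ℂ) (r i R n : ℕ) (θ : Om) : ℂ :=
  (∏ j ∈ range r, Xv c (h j) (a j * (n + 1)) R θ) *
    (Xv c g (a r * (n + 1) + i) R θ - Xv c g (a r * (n + 1) + i + 1) R θ)

lemma meas_Psi (a : ℕ → ℕ) (h : ℕ → ℕ → ℂ) (g : ℕ → ℂ) (r i R n : ℕ) :
    Measurable (Psi c a h g r i R n) := by
  unfold Psi
  exact (Finset.measurable_fun_prod _ fun j _ => meas_Xv c _ _ _).mul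
    ((meas_Xv c _ _ _).sub (meas_Xv c _ _ _))

lemma Psi_bdd (a : ℕ → ℕ) (h : ℕ → ℕ → ℂ) (g : ℕ → ℂ) (C : ℝ) (hC1 : 0 ≤ C) (hh : ∀ j s, ‖h j s‖ ≤ C)
    (hg : ∀ s, ‖g s‖ ≤ C) (r i R n : ℕ) (θ : Om) : ‖Psi c a h g r i R n θ‖ ≤ C ^ r * (C + C) := by
  unfold Psi
  rw [norm_mul]
  refine mul_le_mul ?_ ?_ (norm_nonneg _) (by positivity)
  · rw [norm_prod]
    refine (Finset.prod_le_prod (fun j _ => norm_nonneg _) (fun j _ => Xv_bdd c (h j) C hC1 (hh j) _ _ θ)).trans ?_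
    simp
  · exact (norm_sub_le _ _).trans (add_le_add (Xv_bdd c g C hC1 hg _ _ θ) (Xv_bdd c g C hC1 hg _ _ θ))

variable (ν : Measure Bool) [IsProbabilityMeasure ν]

/-- the freshness condition for blocks -/
def Blocks (G Q K : ℕ) : Prop :=
  ∀ b < Q, ∃ T : Finset ℕ, #T = K ∧ (∀ t ∈ T, (b + 1) * G ≤ t ∧ t < (b + 2) * G) ∧
      ∀ t ∈ T, ∀ s < (Q + 1) * G, s ≠ t → c s ≠ c t

lemma corr (hp : 0 < pr ν) (hq : pr ν < 1) (G Q K : ℕ) (hK : 0 < K) (hB : Blocks c G Q K)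
    (a : ℕ → ℕ) (h : ℕ → ℕ → ℂ) (g : ℕ → ℂ) (C : ℝ) (hC1 : 0 ≤ C) (hh : ∀ j s, ‖h j s‖ ≤ C)
    (hg : ∀ s, ‖g s‖ ≤ C) (r i : ℕ) (ha : ∀ j < r, a j + 1 ≤ a r) (har : 1 ≤ a r)
    (n' n : ℕ) (hn : n' + (2 * G + i + 2) ≤ n) :
    ‖∫ θ, Psi c a h g r i (Q * G) n θ * conj (Psi c a h g r i (Q * G) n' θ) ∂(PP ν)‖ ≤
      (C ^ r * (C + C)) ^ 2 / Real.sqrt (K * (pr ν * (1 - pr ν))) := by
  set M0 : ℕ := max ((a r - 1) * (n + 1)) (a r * (n' + 1) + i + 1) with hM0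
  have hM : M0 + 2 * G < a r * (n + 1) + i := by
    obtain ⟨e, he⟩ := Nat.exists_eq_add_of_le har
    obtain ⟨d, rfl⟩ := Nat.exists_eq_add_of_le hn
    rw [hM0]
    have h1 : (a r - 1) * (n' + (2 * G + i + 2) + d + 1) + 2 * G < a r * (n' + (2 * G + i + 2) + d + 1) + i := by
      rw [he]
      have : (1 + e - 1) = e := by omega
      rw [this]
      nlinarith
    have h2 : a r * (n' + 1) + i + 1 + 2 * G < a r * (n' + (2 * G + i + 2) + d + 1) + i := by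
      rw [he]
      nlinarith
    omega
  have pX : ∀ (u : ℕ → ℂ) (m : ℕ), (∀ s, ‖u s‖ ≤ C) → m ≤ M0 → Past c M0 C (fun R θ => Xv c u m R θ) :=
    fun u m hu hm => past_X c u C hC1 hu hm
  have p1 : Past c M0 (C ^ r) (fun R θ => ∏ j ∈ range r, Xv c (h j) (a j * (n + 1)) R θ) := by
    apply past_prod c hC1 r (fun j R θ => Xv c (h j) (a j * (n + 1)) R θ)
    intro j hj
    apply pX _ _ (hh j)
    refine le_trans ?_ (le_max_left _ _)
    apply Nat.mul_le_mul_right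
    have := ha j hj
    omega
  have p2 : Past c M0 (C ^ r) (fun R θ => ∏ j ∈ range r, Xv c (h j) (a j * (n' + 1)) R θ) := by
    apply past_prod c hC1 r (fun j R θ => Xv c (h j) (a j * (n' + 1)) R θ)
    intro j hj
    apply pX _ _ (hh j)
    refine le_trans ?_ (le_max_left _ _)
    apply Nat.mul_le_mul
    · have := ha j hj
      omega
    · omega
  have p3 : Past c M0 (C + C) (fun R θ => Xv c g (a r * (n' + 1) + i) R θ -
      Xv c g (a r * (n' + 1) + i + 1) R θ) := by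
    apply past_sub
    · exact pX _ _ hg (le_trans (by omega) (le_max_right _ _))
    · exact pX _ _ hg (le_max_right _ _)
  have p4 : Past c M0 (C ^ r * (C + C)) (fun R θ => Psi c a h g r i R n' θ) :=
    past_mul c (by positivity) p2 p3
  have p5 := past_mul c (by positivity) p1 (past_conj c p4)
  have key := pair c ν hp hq G Q K M0 (a r * (n + 1) + i) hK hM hB _ _ (by positivity) p5 g C hC1 hg
  have e1 : ∀ θ, Psi c a h g r i (Q * G) n θ * conj (Psi c a h g r i (Q * G) n' θ) =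
      (∏ j ∈ range r, Xv c (h j) (a j * (n + 1)) (Q * G) θ) * conj (Psi c a h g r i (Q * G) n' θ) *
        (Xv c g (a r * (n + 1) + i) (Q * G) θ - Xv c g (a r * (n + 1) + i + 1) (Q * G) θ) := by
    intro θ
    conv_lhs => rw [Psi]
    ring
  simp_rw [e1]
  refine key.trans ?_
  apply div_le_div_of_nonneg_right _ (Real.sqrt_nonneg _)
  have : 0 ≤ C ^ r := by positivity
  have h2 : C * (C ^ r * (C ^ r * (C + C))) ≤ (C ^ r * (C + C)) ^ 2 := by
    have h3 : (C ^ r * (C + C)) ^ 2 = (C + C) * (C ^ r * (C ^ r * (C + C))) := by ring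
    rw [h3]
    apply mul_le_mul_of_nonneg_right _ (by positivity)
    linarith
  exact h2

lemma moment (hp : 0 < pr ν) (hq : pr ν < 1) (G Q K : ℕ) (hK : 0 < K) (hB : Blocks c G Q K)
    (a : ℕ → ℕ) (h : ℕ → ℕ → ℂ) (g : ℕ → ℂ) (C : ℝ) (hC1 : 0 ≤ C) (hh : ∀ j s, ‖h j s‖ ≤ C)
    (hg : ∀ s, ‖g s‖ ≤ C) (r i : ℕ) (ha : ∀ j < r, a j + 1 ≤ a r) (har : 1 ≤ a r) (N : ℕ) :
    ∫ θ, ‖∑ n ∈ range N, Psi c a h g r i (Q * G) n θ‖ ^ 2 ∂(PP ν) ≤
      (C ^ r * (C + C)) ^ 2 * (N * (2 * (2 * G + i + 2) + 1) + N ^ 2 / Real.sqrt (K * (pr ν * (1 - pr ν)))) := by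
  set D : ℝ := C ^ r * (C + C) with hD
  have hD0 : 0 ≤ D := by positivity
  set W := 2 * G + i + 2 with hW
  set Ψ : ℕ → Om → ℂ := fun n θ => Psi c a h g r i (Q * G) n θ with hΨ
  have mΨ : ∀ n, Measurable (Ψ n) := fun n => meas_Psi c a h g r i _ n
  have nΨ : ∀ n θ, ‖Ψ n θ‖ ≤ D := fun n θ => Psi_bdd c a h g C hC1 hh hg r i _ n θ
  have hint : ∀ n n', Integrable (fun θ => Ψ n θ * conj (Ψ n' θ)) (PP ν) := by
    intro n n'
    refine Integrable.of_bound ((mΨ n).mul (Complex.continuous_conj.measurable.comp (mΨ n'))).aestronglyMeasurable (D * D) ?_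
    filter_upwards with θ
    rw [norm_mul, Complex.norm_conj]
    exact mul_le_mul (nΨ n θ) (nΨ n' θ) (norm_nonneg _) hD0
  have htriv : ∀ n n', ‖∫ θ, Ψ n θ * conj (Ψ n' θ) ∂(PP ν)‖ ≤ D ^ 2 := by
    intro n n'
    have := norm_integral_le_of_norm_le_const (μ := PP ν) (C := D ^ 2)
      (f := fun θ => Ψ n θ * conj (Ψ n' θ)) (Eventually.of_forall fun θ => by
        rw [norm_mul, Complex.norm_conj, sq]
        exact mul_le_mul (nΨ n θ) (nΨ n' θ) (norm_nonneg _) hD0)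
    simpa using this
  set κ : ℝ := D ^ 2 / Real.sqrt (K * (pr ν * (1 - pr ν))) with hκ
  have hκ0 : 0 ≤ κ := by positivity
  have hfar : ∀ n n', (n' + W ≤ n ∨ n + W ≤ n') → ‖∫ θ, Ψ n θ * conj (Ψ n' θ) ∂(PP ν)‖ ≤ κ := by
    intro n n' hnn
    rcases hnn with h1 | h1
    · exact corr c ν hp hq G Q K hK hB a h g C hC1 hh hg r i ha har n' n h1
    · have h2 := corr c ν hp hq G Q K hK hB a h g C hC1 hh hg r i ha har n n' h1
      have e1 : ∫ θ, Ψ n θ * conj (Ψ n' θ) ∂(PP ν) = conj (∫ θ, Ψ n' θ * conj (Ψ n θ) ∂(PP ν)) := by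
        rw [← integral_conj]
        congr 1; ext θ
        simp [mul_comm]
      rw [e1, Complex.norm_conj]
      exact h2
  have e1 : ∀ θ, ((‖∑ n ∈ range N, Ψ n θ‖ ^ 2 : ℝ) : ℂ) = ∑ n ∈ range N, ∑ n' ∈ range N, Ψ n θ * conj (Ψ n' θ) := by
    intro θ
    have : ((‖∑ n ∈ range N, Ψ n θ‖ ^ 2 : ℝ) : ℂ) = (∑ n ∈ range N, Ψ n θ) * conj (∑ n ∈ range N, Ψ n θ) := by
      rw [Complex.mul_conj, Complex.normSq_eq_norm_sq]
    rw [this, map_sum, Finset.sum_mul_sum]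
  have e2 : ((∫ θ, ‖∑ n ∈ range N, Ψ n θ‖ ^ 2 ∂(PP ν) : ℝ) : ℂ) =
      ∑ n ∈ range N, ∑ n' ∈ range N, ∫ θ, Ψ n θ * conj (Ψ n' θ) ∂(PP ν) := by
    rw [← integral_complex_ofReal]
    simp_rw [e1]
    rw [integral_finsetSum _ (fun n _ => integrable_finsetSum _ (fun n' _ => hint n n'))]
    simp_rw [integral_finsetSum _ (fun n' _ => hint _ n')]
  have e3 : ∫ θ, ‖∑ n ∈ range N, Ψ n θ‖ ^ 2 ∂(PP ν) ≤
      ∑ n ∈ range N, ∑ n' ∈ range N, ‖∫ θ, Ψ n θ * conj (Ψ n' θ) ∂(PP ν)‖ := by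
    have h1 : ‖((∫ θ, ‖∑ n ∈ range N, Ψ n θ‖ ^ 2 ∂(PP ν) : ℝ) : ℂ)‖ ≤
      ∑ n ∈ range N, ∑ n' ∈ range N, ‖∫ θ, Ψ n θ * conj (Ψ n' θ) ∂(PP ν)‖ := by
      rw [e2]
      refine (norm_sum_le _ _).trans (Finset.sum_le_sum fun n _ => norm_sum_le _ _)
    rw [Complex.norm_real, Real.norm_eq_abs] at h1
    exact (le_abs_self _).trans h1
  refine e3.trans ?_
  have hrow : ∀ n ∈ range N, ∑ n' ∈ range N, ‖∫ θ, Ψ n θ * conj (Ψ n' θ) ∂(PP ν)‖ ≤
      D ^ 2 * (2 * W + 1) + N * κ := by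
    intro n _
    rw [← Finset.sum_filter_add_sum_filter_not (range N) (fun n' => n' ∈ Finset.Icc (n - W) (n + W))]
    apply add_le_add
    · refine (Finset.sum_le_sum fun n' _ => htriv n n').trans ?_
      rw [Finset.sum_const, nsmul_eq_mul, mul_comm]
      apply mul_le_mul_of_nonneg_left _ (by positivity)
      have h2 : #{n' ∈ range N | n' ∈ Finset.Icc (n - W) (n + W)} ≤ 2 * W + 1 := by
        refine (Finset.card_le_card (t := Finset.Icc (n - W) (n + W)) ?_).trans ?_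
        · intro x hx
          rw [Finset.mem_filter] at hx
          exact hx.2
        · rw [Nat.card_Icc]; omega
      exact_mod_cast h2
    · have h3 : ∀ n' ∈ (range N).filter (fun n' => ¬ n' ∈ Finset.Icc (n - W) (n + W)),
          ‖∫ θ, Ψ n θ * conj (Ψ n' θ) ∂(PP ν)‖ ≤ κ := by
        intro n' hn'
        rw [Finset.mem_filter, Finset.mem_Icc, not_and_or] at hn'
        apply hfar
        rcases hn'.2 with h4 | h4
        · left; omega
        · right; omega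
      refine (Finset.sum_le_sum h3).trans ?_
      rw [Finset.sum_const, nsmul_eq_mul]
      apply mul_le_mul_of_nonneg_right _ hκ0
      have := Finset.card_filter_le (range N) (fun n' => ¬ n' ∈ Finset.Icc (n - W) (n + W))
      rw [Finset.card_range] at this
      exact_mod_cast this
  refine (Finset.sum_le_sum hrow).trans ?_
  have hWr : (W : ℝ) = 2 * G + i + 2 := by rw [hW]; push_cast; ring
  rw [Finset.sum_const, Finset.card_range, nsmul_eq_mul, hκ, hWr]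
  apply le_of_eq
  ring

/-- the length of the blocks at scale `l` -/
def Gl (l : ℕ) : ℕ := l ^ 4 * (2 * 2 ^ Nat.log 2 l + 1)

/-- the range at scale `l` -/
def Rl (l : ℕ) : ℕ := l ^ 5 * Gl l

/-- freshness of the label sequence -/
def FreshSeq : Prop := ∀ k a : ℕ, ∃ t, a ≤ t ∧ t ≤ a + 2 * 2 ^ k ∧
      ∀ s, s ≠ t → s ≤ t + Pool.Agent.R205.PC.Lk k → t ≤ s + Pool.Agent.R205.PC.Lk k → c s ≠ c t

lemma blocks_of_fresh (hf : FreshSeq c) (l : ℕ) (hl : 64 ≤ l) : Blocks c (Gl l) (l ^ 5) (l ^ 4) := by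
  set k := Nat.log 2 l with hk
  have hk1 : 2 ^ k ≤ l := Nat.pow_log_le_self 2 (by omega)
  have hk2 : l < 2 ^ (k + 1) := Nat.lt_pow_succ_log_self (by norm_num) l
  have hk6 : 6 ≤ k := by
    rw [hk]
    apply Nat.le_log_of_pow_le (by norm_num)
    norm_num; exact hl
  set w := 2 * 2 ^ k + 1 with hw
  have hG : Gl l = l ^ 4 * w := rfl
  have hL : (l ^ 5 + 1) * Gl l ≤ Pool.Agent.R205.PC.Lk k := by
    have h1 : w ≤ 3 * l := by omega
    have h2 : (l ^ 5 + 1) * Gl l ≤ 8 * l ^ 10 := by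
      rw [hG]
      have h3 : 1 ≤ l ^ 5 := Nat.one_le_pow _ _ (by omega)
      calc (l ^ 5 + 1) * (l ^ 4 * w) ≤ (l ^ 5 + l ^ 5) * (l ^ 4 * (3 * l)) := by gcongr
        _ = 6 * l ^ 10 := by ring
        _ ≤ 8 * l ^ 10 := by omega
    refine h2.trans ?_
    have h4 : 8 * l ^ 10 ≤ 2 ^ (3 + 10 * (k + 1)) := by
      rw [pow_add, pow_mul', show (2:ℕ)^3 = 8 by norm_num]
      apply Nat.mul_le_mul_left
      exact Nat.pow_le_pow_left hk2.le 10
    refine h4.trans ?_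
    unfold Pool.Agent.R205.PC.Lk
    rw [show (4:ℕ) = 2 ^ 2 by norm_num, ← pow_mul]
    apply Nat.pow_le_pow_right (by norm_num)
    nlinarith
  intro b hb
  have hch : ∀ j : ℕ, ∃ t, (b + 1) * Gl l + j * w ≤ t ∧ t ≤ (b + 1) * Gl l + j * w + 2 * 2 ^ k ∧
      ∀ s, s ≠ t → s ≤ t + Pool.Agent.R205.PC.Lk k → t ≤ s + Pool.Agent.R205.PC.Lk k → c s ≠ c t :=
    fun j => hf k _
  choose t ht1 ht2 ht3 using hch
  have hinc : ∀ j j', j < j' → t j < t j' := by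
    intro j j' hjj
    have h1 := ht2 j
    have h2 := ht1 j'
    have h3 : (j + 1) * w ≤ j' * w := Nat.mul_le_mul_right w hjj
    have h4 : (j + 1) * w = j * w + w := by ring
    omega
  refine ⟨(range (l ^ 4)).image t, ?_, ?_, ?_⟩
  · rw [Finset.card_image_of_injective, Finset.card_range]
    intro j j' hjj
    rcases lt_trichotomy j j' with h | h | h
    · have := hinc j j' h; omega
    · exact h
    · have := hinc j' j h; omega
  · intro s hs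
    obtain ⟨j, hj, rfl⟩ := Finset.mem_image.1 hs
    rw [Finset.mem_range] at hj
    refine ⟨le_trans (by omega) (ht1 j), ?_⟩
    have h1 := ht2 j
    have h3 : (j + 1) * w ≤ l ^ 4 * w := Nat.mul_le_mul_right w hj
    have h4 : (j + 1) * w = j * w + w := by ring
    have h5 : (b + 2) * Gl l = (b + 1) * Gl l + Gl l := by ring
    rw [h5]
    have h6 : Gl l = l ^ 4 * w := hG
    omega
  · intro s hs u hu hus
    obtain ⟨j, hj, rfl⟩ := Finset.mem_image.1 hs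
    rw [Finset.mem_range] at hj
    have h1 := ht2 j
    have h3 : (j + 1) * w ≤ l ^ 4 * w := Nat.mul_le_mul_right w hj
    have h4 : (j + 1) * w = j * w + w := by ring
    have h5 : (b + 2) * Gl l = (b + 1) * Gl l + Gl l := by ring
    have h6 : Gl l = l ^ 4 * w := hG
    have h7 : (b + 2) * Gl l ≤ (l ^ 5 + 1) * Gl l := Nat.mul_le_mul_right _ (by omega)
    apply ht3 j u hus
    · omega
    · omega

/-- almost sure convergence along eighth powers -/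
theorem conv_pow (hp : 0 < pr ν) (hq : pr ν < 1) (hf : FreshSeq c)
    (a : ℕ → ℕ) (h : ℕ → ℕ → ℂ) (g : ℕ → ℂ) (C : ℝ) (hC1 : 0 ≤ C) (hh : ∀ j s, ‖h j s‖ ≤ C)
    (hg : ∀ s, ‖g s‖ ≤ C) (r i : ℕ) (ha : ∀ j < r, a j + 1 ≤ a r) (har : 1 ≤ a r) :
    ∀ᵐ θ ∂(PP ν), Tendsto (fun l : ℕ => (1 / ((l ^ 8 : ℕ) : ℂ)) *
      ∑ n ∈ range (l ^ 8), Psi c a h g r i (Rl l) n θ) atTop (𝓝 0) := by
  set D : ℝ := C ^ r * (C + C) with hD
  have hD0 : 0 ≤ D := by positivity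
  have hpq : 0 < pr ν * (1 - pr ν) := mul_pos hp (by linarith)
  set ρ := Real.sqrt (pr ν * (1 - pr ν)) with hρ
  have hρ0 : 0 < ρ := Real.sqrt_pos.2 hpq
  refine ae_tendsto (PP ν) _ ?_ D ?_ (D ^ 2 * (2 * (6 + i + 2) + 1 + 1 / ρ)) ?_
  · intro l
    exact (Finset.measurable_fun_sum _ fun n _ => meas_Psi c a h g r i _ n).const_mul _
  · intro l θ
    rw [norm_mul]
    rcases Nat.eq_zero_or_pos l with h0 | h0
    · subst h0; simp [hD0]
    · have hl : (0:ℝ) < ((l ^ 8 : ℕ) : ℝ) := by positivity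
      have h1 : ‖∑ n ∈ range (l ^ 8), Psi c a h g r i (Rl l) n θ‖ ≤ ((l ^ 8 : ℕ) : ℝ) * D := by
        refine (norm_sum_le_of_le _ fun n _ => Psi_bdd c a h g C hC1 hh hg r i _ n θ).trans ?_
        rw [Finset.sum_const, Finset.card_range, nsmul_eq_mul]
      rw [norm_div, norm_one, Complex.norm_natCast, one_div, ← div_eq_inv_mul, div_le_iff₀ hl, mul_comm]
      exact h1
  · filter_upwards [eventually_ge_atTop 64] with l hl
    have hl1 : (1:ℝ) ≤ l := by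
      have : 1 ≤ l := by omega
      exact_mod_cast this
    have hl0 : (0:ℝ) < l := by linarith
    have hm := moment c ν hp hq (Gl l) (l ^ 5) (l ^ 4) (by positivity) (blocks_of_fresh c hf l hl)
      a h g C hC1 hh hg r i ha har (l ^ 8)
    have e1 : ∀ θ, ‖(1 / ((l ^ 8 : ℕ) : ℂ)) * ∑ n ∈ range (l ^ 8), Psi c a h g r i (Rl l) n θ‖ ^ 2 =
        (1 / (l : ℝ) ^ 16) * ‖∑ n ∈ range (l ^ 8), Psi c a h g r i (l ^ 5 * Gl l) n θ‖ ^ 2 := by
      intro θ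
      rw [norm_mul, mul_pow, norm_div, norm_one, Complex.norm_natCast]
      unfold Rl
      congr 1
      push_cast
      rw [div_pow, one_pow]
      congr 1
      ring
    simp_rw [e1]
    rw [integral_const_mul]
    have hG : ((Gl l : ℕ) : ℝ) ≤ 3 * l ^ 5 := by
      unfold Gl
      have hk1 : 2 ^ Nat.log 2 l ≤ l := Nat.pow_log_le_self 2 (by omega)
      have : l ^ 4 * (2 * 2 ^ Nat.log 2 l + 1) ≤ 3 * l ^ 5 := by
        calc l ^ 4 * (2 * 2 ^ Nat.log 2 l + 1) ≤ l ^ 4 * (3 * l) := Nat.mul_le_mul_left _ (by omega)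
          _ = 3 * l ^ 5 := by ring
      exact_mod_cast this
    have hsq : Real.sqrt (((l ^ 4 : ℕ) : ℝ) * (pr ν * (1 - pr ν))) = l ^ 2 * ρ := by
      rw [Real.sqrt_mul (by positivity)]
      congr 1
      push_cast
      rw [show (l : ℝ) ^ 4 = (l ^ 2) ^ 2 by ring, Real.sqrt_sq (by positivity)]
    rw [hsq] at hm
    calc (1 / (l : ℝ) ^ 16) * ∫ θ, ‖∑ n ∈ range (l ^ 8), Psi c a h g r i (l ^ 5 * Gl l) n θ‖ ^ 2 ∂(PP ν)
        ≤ (1 / (l : ℝ) ^ 16) * (D ^ 2 * (((l ^ 8 : ℕ) : ℝ) * (2 * (2 * (Gl l : ℝ) + i + 2) + 1) +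
            ((l ^ 8 : ℕ) : ℝ) ^ 2 / (l ^ 2 * ρ))) := by
          apply mul_le_mul_of_nonneg_left hm (by positivity)
      _ ≤ (1 / (l : ℝ) ^ 16) * (D ^ 2 * ((l : ℝ) ^ 8 * (2 * (2 * (3 * (l : ℝ) ^ 5) + i + 2) + 1) +
            ((l : ℝ) ^ 8) ^ 2 / (l ^ 2 * ρ))) := by
          push_cast
          gcongr
      _ ≤ (1 / (l : ℝ) ^ 16) * (D ^ 2 * ((l : ℝ) ^ 8 * ((2 * (6 + i + 2) + 1) * (l : ℝ) ^ 6) +
            ((l : ℝ) ^ 8) ^ 2 / (l ^ 2 * ρ))) := by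
          have h1 : 2 * (2 * (3 * (l : ℝ) ^ 5) + i + 2) + 1 ≤ (2 * (6 + i + 2) + 1) * (l : ℝ) ^ 6 := by
            have h2 : (1:ℝ) ≤ (l : ℝ) ^ 5 := one_le_pow₀ hl1
            have h3 : (l : ℝ) ^ 5 ≤ (l : ℝ) ^ 6 := pow_le_pow_right₀ hl1 (by norm_num)
            have h4 : (0:ℝ) ≤ i := Nat.cast_nonneg i
            nlinarith
          gcongr
      _ = D ^ 2 * (2 * (6 + i + 2) + 1 + 1 / ρ) * (1 / (l : ℝ) ^ 2) := by
          field_simp

end Pool.Agent.V8H53.Ind
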