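import Pool.Agent.V8H53.Ind.Moment

/-!
# Almost every thinning, almost every point
-/

set_option autoImplicit false
set_option linter.unusedSectionVars false

open MeasureTheory Filter Topology Set Finset
open scoped ENNReal ComplexConjugate

namespace Pool.Agent.V8H53.Ind

variable {Y : Type*} [MeasurableSpace Y] (S : Y → Y) (ξ : Y → ℕ)

/-- the labels along the orbit -/
def cy (y : Y) : ℕ → ℕ := fun s => ξ (S^[s] y)

/-- the values along the orbit -/
def vy {α : Type*} (f : Y → α) (y : Y) : ℕ → α := fun s => f (S^[s] y)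

lemma meas_bit2 (hS : Measurable S) (hξ : Measurable ξ) (s : ℕ) :
    MeasurableSet {w : Om × Y | w.1 (cy S ξ w.2 s) = true} := by
  have h1 : Measurable (fun q : ℕ × Om => q.2 q.1) :=
    measurable_from_prod_countable_right fun n => measurable_pi_apply n
  have h2 : Measurable (fun w : Om × Y => (ξ (S^[s] w.2), w.1)) :=
    (hξ.comp ((hS.iterate s).comp measurable_snd)).prodMk measurable_fst
  exact (h1.comp h2) (measurableSet_singleton true)

lemma meas_cnt2 (hS : Measurable S) (hξ : Measurable ξ) (s : ℕ) :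
    Measurable (fun w : Om × Y => cnt (cy S ξ w.2) w.1 s) := by
  have : (fun w : Om × Y => cnt (cy S ξ w.2) w.1 s) =
      fun w => ∑ t ∈ range s, (if w.1 (cy S ξ w.2 t) = true then 1 else 0) := by
    ext w; unfold cnt; rw [Finset.card_filter]
  rw [this]
  exact Finset.measurable_fun_sum _ (fun i _ =>
    Measurable.ite (meas_bit2 S ξ hS hξ _) measurable_const measurable_const)

lemma meas_Xv2 (hS : Measurable S) (hξ : Measurable ξ) (f : Y → ℂ) (hf : Measurable f) (M R : ℕ) :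
    Measurable (fun w : Om × Y => Xv (cy S ξ w.2) (vy S f w.2) M R w.1) := by
  unfold Xv
  refine Finset.measurable_fun_sum _ (fun s _ => ?_)
  refine Measurable.ite ?_ ?_ measurable_const
  · exact (meas_bit2 S ξ hS hξ s).inter (meas_cnt2 S ξ hS hξ s (measurableSet_singleton M))
  · exact hf.comp ((hS.iterate s).comp measurable_snd)

lemma meas_Psi2 (hS : Measurable S) (hξ : Measurable ξ) (a : ℕ → ℕ) (f : ℕ → Y → ℂ)
    (hf : ∀ j, Measurable (f j)) (r i R n : ℕ) :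
    Measurable (fun w : Om × Y => Psi (cy S ξ w.2) a (fun j => vy S (f j) w.2) (vy S (f r) w.2) r i R n w.1) := by
  unfold Psi
  exact (Finset.measurable_fun_prod _ fun j _ => meas_Xv2 S ξ hS hξ (f j) (hf j) _ _).mul
    ((meas_Xv2 S ξ hS hξ (f r) (hf r) _ _).sub (meas_Xv2 S ξ hS hξ (f r) (hf r) _ _))

variable (ν : Measure Bool) [IsProbabilityMeasure ν]

theorem ae_theta (hp : 0 < pr ν) (hq : pr ν < 1) (μ : Measure Y) [IsProbabilityMeasure μ]
    (hS : Measurable S) (hξ : Measurable ξ) (hfr : ∀ᵐ y ∂μ, Pool.Agent.R205.PC.Fresh S ξ y)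
    (a : ℕ → ℕ) (f : ℕ → Y → ℂ) (hf : ∀ j, Measurable (f j)) (C : ℝ) (hfC : ∀ j y, ‖f j y‖ ≤ C)
    (r i : ℕ) (ha : ∀ j < r, a j + 1 ≤ a r) (har : 1 ≤ a r) :
    ∀ᵐ θ ∂(PP ν), ∀ᵐ y ∂μ, Tendsto (fun l : ℕ => (1 / ((l ^ 8 : ℕ) : ℂ)) *
      ∑ n ∈ range (l ^ 8), Psi (cy S ξ y) a (fun j => vy S (f j) y) (vy S (f r) y) r i (Rl l) n θ)
      atTop (𝓝 0) := by
  by_cases hne : Nonempty Y
  swap
  · filter_upwards with θ
    filter_upwards with y
    exact absurd ⟨y⟩ hne
  obtain ⟨y0⟩ := hne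
  have hC0 : 0 ≤ C := (norm_nonneg _).trans (hfC 0 y0)
  have hset : MeasurableSet {w : Om × Y | Tendsto (fun l : ℕ => (1 / ((l ^ 8 : ℕ) : ℂ)) *
      ∑ n ∈ range (l ^ 8), Psi (cy S ξ w.2) a (fun j => vy S (f j) w.2) (vy S (f r) w.2) r i (Rl l) n w.1)
      atTop (𝓝 0)} :=
    measurableSet_tendsto (𝓝 0) fun l =>
      (Finset.measurable_fun_sum _ fun n _ => meas_Psi2 S ξ hS hξ a f hf r i _ n).const_mul _
  rw [Measure.ae_ae_comm hset]
  filter_upwards [hfr] with y hy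
  exact conv_pow (cy S ξ y) ν hp hq hy a (fun j => vy S (f j) y) (vy S (f r) y) C hC0
    (fun j s => hfC j _) (fun s => hfC r _) r i ha har

/-- all exponents and a countable family of functions -/
theorem ae_theta_all (hp : 0 < pr ν) (hq : pr ν < 1) (μ : Measure Y) [IsProbabilityMeasure μ]
    (hS : Measurable S) (hξ : Measurable ξ) (hfr : ∀ᵐ y ∂μ, Pool.Agent.R205.PC.Fresh S ξ y)
    (D : ℕ → ℕ → Y → ℂ) (hD : ∀ u M, Measurable (D u M)) (hDb : ∀ u M y, ‖D u M y‖ ≤ M) :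
    ∀ᵐ θ ∂(PP ν), ∀ (m : ℕ) (a : Fin m → ℕ) (u : Fin m → ℕ) (M r i : ℕ), StrictMono a →
      (∀ j, 0 < a j) → r < m →
      ∀ᵐ y ∂μ, Tendsto (fun l : ℕ => (1 / ((l ^ 8 : ℕ) : ℂ)) *
      ∑ n ∈ range (l ^ 8), Psi (cy S ξ y) (Pool.Agent.R205.PC.ex a)
        (fun j => vy S (D (Pool.Agent.R205.PC.ex u j) M) y)
        (vy S (D (Pool.Agent.R205.PC.ex u r) M) y) r i (Rl l) n θ)
      atTop (𝓝 0) := by
  rw [ae_all_iff]; intro m
  rw [ae_all_iff]; intro a
  rw [ae_all_iff]; intro u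
  rw [ae_all_iff]; intro M
  rw [ae_all_iff]; intro r
  rw [ae_all_iff]; intro i
  by_cases h : StrictMono a ∧ (∀ j, 0 < a j) ∧ r < m
  · obtain ⟨h1, h2, h3⟩ := h
    have hex : ∀ j (h : j < m), Pool.Agent.R205.PC.ex a j = a ⟨j, h⟩ := fun j h => by
      rw [Pool.Agent.R205.PC.ex, dif_pos h]
    have hθ := ae_theta S ξ ν hp hq μ hS hξ hfr (Pool.Agent.R205.PC.ex a)
      (fun j => D (Pool.Agent.R205.PC.ex u j) M) (fun j => hD _ _) M (fun j y => hDb _ _ y) r i
      (fun j hj => by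
        rw [hex j (by omega), hex r h3]
        exact h1 (by exact hj))
      (by rw [hex r h3]; exact h2 _)
    filter_upwards [hθ] with θ hθ _ _ _
    exact hθ
  · filter_upwards with θ g1 g2 g3
    exact absurd ⟨g1, g2, g3⟩ h

end Pool.Agent.V8H53.Ind
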