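import Pool.Agent.V8H53.Ind.Fub

/-!
# The induced map and its orbits
-/

set_option autoImplicit false
set_option linter.unusedSectionVars false

open MeasureTheory Filter Topology Set Finset
open scoped ENNReal ComplexConjugate

namespace Pool.Agent.V8H53.Ind

variable {Y : Type*}

/-- the first return time to `A` -/
noncomputable def ret (S : Y → Y) (A : Set Y) (y : Y) : ℕ := sInf {s : ℕ | 0 < s ∧ S^[s] y ∈ A}

/-- the induced map -/
noncomputable def ind (S : Y → Y) (A : Set Y) (y : Y) : Y := S^[ret S A y] y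

lemma iter_ind (S : Y → Y) (A : Set Y) (y : Y) (hy : y ∈ A)
    (hinf : (Set.ofPred fun s : ℕ => S^[s] y ∈ A).Infinite) (M : ℕ) :
    (ind S A)^[M] y = S^[Nat.nth (fun s => S^[s] y ∈ A) M] y := by
  set p : ℕ → Prop := fun s => S^[s] y ∈ A with hp
  induction M with
  | zero =>
    have : Nat.nth p 0 = 0 := Nat.nth_zero_of_zero (by simpa [hp] using hy)
    rw [this]; rfl
  | succ M ih =>
    rw [Function.iterate_succ_apply', ih]
    set t := Nat.nth p M with ht
    have hlt : t < Nat.nth p (M + 1) := (Nat.nth_strictMono hinf) (Nat.lt_succ_self M)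
    have hmem : p (Nat.nth p (M + 1)) := Nat.nth_mem_of_infinite hinf _
    unfold ind
    have hret : ret S A (S^[t] y) = Nat.nth p (M + 1) - t := by
      unfold ret
      apply IsLeast.csInf_eq
      constructor
      · refine ⟨by omega, ?_⟩
        rw [← Function.iterate_add_apply, Nat.sub_add_cancel hlt.le]
        exact hmem
      · rintro s ⟨hs0, hs⟩
        rw [← Function.iterate_add_apply] at hs
        by_contra hcon
        have h1 : s + t < Nat.nth p (M + 1) := by omega
        have h2 := Nat.le_nth_of_lt_nth_succ h1 hs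
        omega
    rw [hret, ← Function.iterate_add_apply, Nat.sub_add_cancel hlt.le]

lemma sum_nth {p : ℕ → Prop} [DecidablePred p] (hinf : (Set.ofPred p).Infinite) {E : Type*}
    [AddCommMonoid E] (g : ℕ → E) (M : ℕ) :
    ∑ k ∈ range M, g (Nat.nth p k) = ∑ s ∈ range (Nat.nth p M), if p s then g s else 0 := by
  rw [← Finset.sum_filter]
  induction M with
  | zero =>
    have : (range (Nat.nth p 0)).filter p = ∅ := by
      rw [Finset.filter_eq_empty_iff]
      intro s hs hps
      rw [Finset.mem_range, Nat.nth_zero] at hs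
      have h5 : sInf (Set.ofPred p) ≤ s := Nat.sInf_le (s := Set.ofPred p) hps
      omega
    rw [this]; simp
  | succ M ih =>
    rw [Finset.sum_range_succ, ih, Nat.filter_range_nth_eq_insert_of_infinite hinf,
      Finset.sum_insert, add_comm]
    simp

variable [MeasurableSpace Y]

lemma meas_ret {S : Y → Y} (hS : Measurable S) {A : Set Y} (hA : MeasurableSet A) :
    Measurable (ret S A) := by
  have hmA : ∀ s, MeasurableSet {y | S^[s] y ∈ A} := fun s => (hS.iterate s) hA
  refine measurable_to_countable' fun n => ?_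
  have hset : ret S A ⁻¹' {n} = if n = 0 then {y | ∀ s, 0 < s → ¬ S^[s] y ∈ A} else
      {y | S^[n] y ∈ A ∧ ∀ s, 0 < s → s < n → ¬ S^[s] y ∈ A} := by
    ext y
    simp only [Set.mem_preimage, Set.mem_singleton_iff]
    by_cases hex : ∃ s, 0 < s ∧ S^[s] y ∈ A
    · have hne : ({s : ℕ | 0 < s ∧ S^[s] y ∈ A} : Set ℕ).Nonempty := hex
      have hmem := Nat.sInf_mem hne
      have hret0 : 0 < ret S A y := hmem.1
      split_ifs with hn
      · subst hn
        constructor
        · intro h; omega
        · intro h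
          obtain ⟨s, hs1, hs2⟩ := hex
          exact absurd hs2 (h s hs1)
      · constructor
        · rintro rfl
          refine ⟨hmem.2, fun s hs1 hs2 hs3 => ?_⟩
          have := Nat.sInf_le (s := {s : ℕ | 0 < s ∧ S^[s] y ∈ A}) ⟨hs1, hs3⟩
          unfold ret at hs2
          omega
        · rintro ⟨h1, h2⟩
          apply le_antisymm
          · exact Nat.sInf_le (s := {s : ℕ | 0 < s ∧ S^[s] y ∈ A}) ⟨by omega, h1⟩
          · by_contra hcon
            rw [not_le] at hcon
            exact h2 _ hret0 hcon hmem.2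
    · push Not at hex
      have hemp : ({s : ℕ | 0 < s ∧ S^[s] y ∈ A} : Set ℕ) = ∅ := by
        ext s; simp only [Set.mem_ofPred_eq, Set.mem_empty_iff_false, iff_false, not_and]
        exact hex s
      have hret0 : ret S A y = 0 := by unfold ret; rw [hemp]; simp
      rw [hret0]
      split_ifs with hn
      · subst hn
        simp only [true_iff]
        exact hex
      · constructor
        · intro h; exact absurd h.symm hn
        · rintro ⟨h1, _⟩
          exact absurd h1 (hex n (by omega))
  rw [hset]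
  split_ifs
  · have : {y | ∀ s, 0 < s → ¬ S^[s] y ∈ A} = ⋂ s : ℕ, ⋂ (_ : 0 < s), {y | S^[s] y ∈ A}ᶜ := by
      ext y; simp
    rw [this]
    exact MeasurableSet.iInter fun s => MeasurableSet.iInter fun _ => (hmA s).compl
  · have : {y | S^[n] y ∈ A ∧ ∀ s, 0 < s → s < n → ¬ S^[s] y ∈ A} =
        {y | S^[n] y ∈ A} ∩ ⋂ s : ℕ, ⋂ (_ : 0 < s), ⋂ (_ : s < n), {y | S^[s] y ∈ A}ᶜ := by
      ext y; simp
    rw [this]
    exact (hmA n).inter (MeasurableSet.iInter fun s => MeasurableSet.iInter fun _ =>
      MeasurableSet.iInter fun _ => (hmA s).compl)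

lemma meas_ind {S : Y → Y} (hS : Measurable S) {A : Set Y} (hA : MeasurableSet A) :
    Measurable (ind S A) := by
  have h1 : Measurable (fun q : ℕ × Y => S^[q.1] q.2) :=
    measurable_from_prod_countable_right fun n => hS.iterate n
  exact h1.comp ((meas_ret hS hA).prodMk measurable_id)

/-- the ergodic theorem for bounded real functions and an ergodic map -/
lemma birkR {μ : Measure Y} [IsProbabilityMeasure μ] {S : Y → Y} (hS : Ergodic S μ) (F : Y → ℝ)
    (hF : Measurable F) (C : ℝ) (hC : ∀ y, |F y| ≤ C) :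
    ∀ᵐ y ∂μ, Tendsto (fun n : ℕ => (n : ℝ)⁻¹ * ∑ k ∈ range n, F (S^[k] y)) atTop (𝓝 (∫ y, F y ∂μ)) := by
  have hb := Pool.Agent.H165R3.BPE.birkhoff hS.toMeasurePreserving F hF C hC
  have hgm : Measurable[MeasurableSpace.invariants S] (μ[F | MeasurableSpace.invariants S]) :=
    stronglyMeasurable_condExp.measurable
  have hinv : (μ[F | MeasurableSpace.invariants S]) ∘ S = μ[F | MeasurableSpace.invariants S] :=
    MeasurableSpace.comp_eq_of_measurable_invariants hgm
  have hm : AEStronglyMeasurable (μ[F | MeasurableSpace.invariants S]) μ :=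
    (stronglyMeasurable_condExp.mono (MeasurableSpace.invariants_le S)).aestronglyMeasurable
  obtain ⟨c, hc⟩ := hS.ae_eq_const_of_ae_eq_comp_ae hm (by rw [hinv])
  have hint : ∫ y, F y ∂μ = c := by
    rw [← integral_condExp (MeasurableSpace.invariants_le S) (f := F) (μ := μ), integral_congr_ae hc]
    simp
  filter_upwards [hb, hc] with y h1 h2
  rw [hint]
  rw [h2] at h1
  exact h1

/-- the ergodic theorem for bounded complex functions and an ergodic map -/
lemma birkC {μ : Measure Y} [IsProbabilityMeasure μ] {S : Y → Y} (hS : Ergodic S μ) (F : Y → ℂ)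
    (hF : Measurable F) (C : ℝ) (hC : ∀ y, ‖F y‖ ≤ C) :
    ∀ᵐ y ∂μ, Tendsto (fun n : ℕ => (n : ℂ)⁻¹ * ∑ k ∈ range n, F (S^[k] y)) atTop (𝓝 (∫ y, F y ∂μ)) := by
  have h1 := birkR hS (fun y => (F y).re) (Complex.measurable_re.comp hF) C
    (fun y => (Complex.abs_re_le_norm _).trans (hC y))
  have h2 := birkR hS (fun y => (F y).im) (Complex.measurable_im.comp hF) C
    (fun y => (Complex.abs_im_le_norm _).trans (hC y))
  have hint : Integrable F μ := Integrable.of_bound hF.aestronglyMeasurable C (Eventually.of_forall hC)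
  have hI : ∫ y, F y ∂μ = ((∫ y, (F y).re ∂μ : ℝ) : ℂ) + ((∫ y, (F y).im ∂μ : ℝ) : ℂ) * Complex.I :=
    (integral_re_add_im hint).symm
  filter_upwards [h1, h2] with y g1 g2
  rw [hI]
  have g1' := (Complex.continuous_ofReal.tendsto _).comp g1
  have g2' := ((Complex.continuous_ofReal.tendsto _).comp g2).mul_const Complex.I
  refine (g1'.add g2').congr fun n => ?_
  simp only [Function.comp]
  push_cast
  rw [mul_assoc, ← mul_add, Finset.sum_mul, ← Finset.sum_add_distrib]
  congr 1
  refine Finset.sum_congr rfl fun k _ => ?_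
  exact Complex.re_add_im _

/-- good points: the visits to `A` have the right frequency -/
structure Gd (S : Y → Y) (A : Set Y) (α : ℝ) (y : Y) : Prop where
  mem : y ∈ A
  inf : (Set.ofPred fun s : ℕ => S^[s] y ∈ A).Infinite
  freq : Tendsto (fun M : ℕ => (M : ℝ) / (Nat.nth (fun s => S^[s] y ∈ A) M : ℝ)) atTop (𝓝 α)

lemma ae_good {μ : Measure Y} [IsProbabilityMeasure μ] {S : Y → Y} (hS : Ergodic S μ) {A : Set Y}
    (hA : MeasurableSet A) (hA0 : 0 < μ.real A) : ∀ᵐ y ∂(μ.restrict A), Gd S A (μ.real A) y := by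
  classical
  have h1 := birkR hS (A.indicator fun _ => (1:ℝ)) (measurable_const.indicator hA) 1 (by
    intro y
    by_cases h : y ∈ A <;> simp [h])
  rw [integral_indicator_const _ hA] at h1
  simp only [smul_eq_mul, mul_one] at h1
  filter_upwards [ae_restrict_of_ae h1, ae_restrict_mem hA] with y hy hyA
  have hcount : ∀ n : ℕ, ∑ k ∈ range n, A.indicator (fun _ => (1:ℝ)) (S^[k] y) =
      (Nat.count (fun s => S^[s] y ∈ A) n : ℝ) := by
    intro n
    rw [Nat.count_eq_card_filter_range, Finset.card_filter]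
    push_cast
    refine Finset.sum_congr rfl fun k _ => ?_
    by_cases h : S^[k] y ∈ A <;> simp [h]
  simp only [hcount] at hy
  have hinf : (Set.ofPred fun s : ℕ => S^[s] y ∈ A).Infinite := by
    by_contra hfin
    rw [Set.not_infinite] at hfin
    obtain ⟨K, hK⟩ : ∃ K : ℕ, ∀ n, Nat.count (fun s => S^[s] y ∈ A) n ≤ K := by
      refine ⟨hfin.toFinset.card, fun n => ?_⟩
      rw [Nat.count_eq_card_filter_range]
      apply Finset.card_le_card
      intro s hs
      rw [Finset.mem_filter] at hs
      rw [Set.Finite.mem_toFinset]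
      exact hs.2
    have h0 : Tendsto (fun n : ℕ => (n : ℝ)⁻¹ * (Nat.count (fun s => S^[s] y ∈ A) n : ℝ)) atTop (𝓝 0) := by
      have hK' : Tendsto (fun n : ℕ => (n : ℝ)⁻¹ * (K : ℝ)) atTop (𝓝 0) := by
        have := (tendsto_inv_atTop_nhds_zero_nat (𝕜 := ℝ)).mul_const (K : ℝ)
        simpa using this
      refine squeeze_zero (fun n => by positivity) (fun n => ?_) hK'
      have : (Nat.count (fun s => S^[s] y ∈ A) n : ℝ) ≤ K := by exact_mod_cast hK n
      exact mul_le_mul_of_nonneg_left this (by positivity)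
    have := tendsto_nhds_unique hy h0
    linarith
  refine ⟨hyA, hinf, ?_⟩
  have htop : Tendsto (Nat.nth (fun s => S^[s] y ∈ A)) atTop atTop := (Nat.nth_strictMono hinf).tendsto_atTop
  refine (hy.comp htop).congr fun M => ?_
  simp only [Function.comp]
  rw [Nat.count_nth_of_infinite hinf, div_eq_inv_mul]

/-- averages along the induced map -/
lemma ind_birk {μ : Measure Y} [IsProbabilityMeasure μ] {S : Y → Y} (hS : Ergodic S μ) {A : Set Y}
    (hA : MeasurableSet A) (hA0 : 0 < μ.real A) (F : Y → ℂ) (hF : Measurable F) (C : ℝ)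
    (hC : ∀ y, ‖F y‖ ≤ C) :
    ∀ᵐ y ∂(μ.restrict A), Tendsto (fun M : ℕ => (M : ℂ)⁻¹ * ∑ k ∈ range M, F ((ind S A)^[k] y)) atTop
      (𝓝 ((μ.real A : ℂ)⁻¹ * ∫ y in A, F y ∂μ)) := by
  classical
  have h1 := birkC hS (A.indicator F) (hF.indicator hA) C (by
    intro y
    by_cases h : y ∈ A
    · simpa [h] using hC y
    · simpa [h] using (norm_nonneg _).trans (hC y))
  rw [integral_indicator hA] at h1
  filter_upwards [ae_restrict_of_ae h1, ae_good hS hA hA0] with y hy hg
  set p : ℕ → Prop := fun s => S^[s] y ∈ A with hp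
  have htop : Tendsto (Nat.nth p) atTop atTop := (Nat.nth_strictMono hg.inf).tendsto_atTop
  have h2 := hy.comp htop
  have h3 : Tendsto (fun M : ℕ => ((((M : ℝ) / (Nat.nth p M : ℝ))⁻¹ : ℝ) : ℂ)) atTop (𝓝 ((μ.real A : ℂ)⁻¹)) := by
    have := (Complex.continuous_ofReal.tendsto _).comp (hg.freq.inv₀ hA0.ne')
    rw [← Complex.ofReal_inv]
    exact this
  refine (h3.mul h2).congr' ?_
  filter_upwards [eventually_gt_atTop 0] with M hM
  simp only [Function.comp]
  have hM0 : (M : ℂ) ≠ 0 := by exact_mod_cast hM.ne'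
  have hn0 : (Nat.nth p M : ℂ) ≠ 0 := by
    have h4 : 0 < Nat.nth p M := lt_of_le_of_lt (Nat.zero_le _) ((Nat.nth_strictMono hg.inf) hM)
    exact_mod_cast h4.ne'
  have e1 : ∑ k ∈ range M, F ((ind S A)^[k] y) = ∑ s ∈ range (Nat.nth p M), A.indicator F (S^[s] y) := by
    rw [Finset.sum_congr rfl (fun k _ => by rw [iter_ind S A y hg.mem hg.inf k]),
      sum_nth hg.inf (fun s => F (S^[s] y))]
    refine Finset.sum_congr rfl fun s _ => ?_
    by_cases h : S^[s] y ∈ A
    · rw [if_pos h, Set.indicator_of_mem h]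
    · rw [if_neg h, Set.indicator_of_notMem h]
  rw [e1]
  push_cast
  field_simp

end Pool.Agent.V8H53.Ind
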