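import Pool.Agent.R205.PC.Z4

/-!
# Lemmas on sequences
-/

set_option autoImplicit false
set_option linter.unusedSectionVars false

open Filter Topology Finset

namespace Pool.Agent.V8H53.Ind

open Pool.Agent.R205.PC (rt rt_pow lt_rt rt_tendsto rt_ratio)

lemma fill_pow (z : ℕ → ℂ) (D : ℝ) (hz : ∀ n, ‖z n‖ ≤ D)
    (h : Tendsto (fun l : ℕ => (1 / ((l ^ 8 : ℕ) : ℂ)) * ∑ n ∈ range (l ^ 8), z n) atTop (𝓝 0)) :
    Tendsto (fun N : ℕ => (N : ℂ)⁻¹ * ∑ n ∈ range N, z n) atTop (𝓝 0) := by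
  have hD : 0 ≤ D := (norm_nonneg _).trans (hz 0)
  have hr := rt_ratio (q := 8) (by norm_num)
  have h1 := h.comp (rt_tendsto (q := 8) (by norm_num))
  have h2 : Tendsto (fun N : ℕ => ((((rt 8 N ^ 8 : ℕ) : ℝ) / N : ℝ) : ℂ) *
      ((1 / ((rt 8 N ^ 8 : ℕ) : ℂ)) * ∑ n ∈ range (rt 8 N ^ 8), z n)) atTop (𝓝 0) := by
    have := ((Complex.continuous_ofReal.tendsto 1).comp hr).mul h1
    rw [mul_zero] at this
    exact this
  have h3 : Tendsto (fun N : ℕ => D * (1 - ((rt 8 N ^ 8 : ℕ) : ℝ) / N)) atTop (𝓝 0) := by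
    have := (hr.const_sub 1).const_mul D
    rw [sub_self, mul_zero] at this
    exact this
  rw [tendsto_zero_iff_norm_tendsto_zero] at h2 ⊢
  have h4 := h2.add h3
  rw [add_zero] at h4
  refine squeeze_zero' (Eventually.of_forall fun N => norm_nonneg _) ?_ h4
  filter_upwards [eventually_ge_atTop 1] with N hN
  have hN0 : (0:ℝ) < N := by exact_mod_cast hN
  set R := rt 8 N ^ 8 with hR
  have hRN : R ≤ N := rt_pow (by norm_num) N
  have hR1 : 0 < R := by
    have h5 : N < (rt 8 N + 1) ^ 8 := lt_rt (by norm_num) N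
    have : rt 8 N ≠ 0 := by
      intro h0; rw [h0] at h5; omega
    positivity
  have hR0 : (R : ℂ) ≠ 0 := by exact_mod_cast hR1.ne'
  rw [← Finset.sum_range_add_sum_Ico _ hRN, mul_add]
  refine (norm_add_le _ _).trans (add_le_add (le_of_eq ?_) ?_)
  · congr 1
    push_cast
    have hNc : (N : ℂ) ≠ 0 := by exact_mod_cast hN0.ne'
    field_simp
  · rw [norm_mul, norm_inv, Complex.norm_natCast]
    have h6 : ‖∑ n ∈ Finset.Ico R N, z n‖ ≤ ((N : ℝ) - R) * D := by
      refine (norm_sum_le_of_le _ fun n _ => hz n).trans ?_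
      rw [Finset.sum_const, Nat.card_Ico, nsmul_eq_mul, Nat.cast_sub hRN]
    calc (N : ℝ)⁻¹ * ‖∑ n ∈ Finset.Ico R N, z n‖ ≤ (N : ℝ)⁻¹ * (((N : ℝ) - R) * D) := by gcongr
      _ = D * (1 - (R : ℝ) / N) := by field_simp

/-- averages along a progression -/
lemma avg_sub (u : ℕ → ℝ) (hu : ∀ k, 0 ≤ u k) (δ : ℝ)
    (h : Tendsto (fun M : ℕ => (M : ℝ)⁻¹ * ∑ k ∈ range M, u k) atTop (𝓝 δ)) (a : ℕ) (ha : 1 ≤ a)
    (η : ℝ) (hη : 0 < η) :
    ∀ᶠ N : ℕ in atTop, (N : ℝ)⁻¹ * ∑ n ∈ range N, u (a * (n + 1)) ≤ a * δ + η := by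
  have ht : Tendsto (fun N : ℕ => a * N + 1) atTop atTop := by
    apply tendsto_atTop_mono (f := fun N => N) _ tendsto_id
    intro N
    nlinarith
  have h1 := h.comp ht
  have h2 : Tendsto (fun N : ℕ => ((a * N + 1 : ℕ) : ℝ) / N) atTop (𝓝 a) := by
    have h3 : Tendsto (fun N : ℕ => (a : ℝ) + (N : ℝ)⁻¹) atTop (𝓝 (a + 0)) :=
      (tendsto_inv_atTop_nhds_zero_nat (𝕜 := ℝ)).const_add _
    rw [add_zero] at h3
    refine h3.congr' ?_
    filter_upwards [eventually_ge_atTop 1] with N hN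
    have hN0 : (0:ℝ) < N := by exact_mod_cast hN
    push_cast
    field_simp
  have h4 := h2.mul h1
  have h5 := (tendsto_order.1 h4).2 (a * δ + η) (by linarith)
  filter_upwards [h5, eventually_ge_atTop 1] with N hN hN1
  refine le_trans ?_ hN.le
  have hN0 : (0:ℝ) < N := by exact_mod_cast hN1
  simp only [Function.comp]
  have hA : (0:ℝ) < ((a * N + 1 : ℕ) : ℝ) := by positivity
  rw [div_mul_eq_mul_div, ← mul_assoc, mul_inv_cancel₀ hA.ne', one_mul, div_eq_inv_mul]
  apply mul_le_mul_of_nonneg_left _ (by positivity)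
  have hinj : Set.InjOn (fun n : ℕ => a * (n + 1)) (range N) := by
    intro x _ y _ hxy
    have := Nat.eq_of_mul_eq_mul_left (by omega) hxy
    omega
  rw [← Finset.sum_image (f := u) hinj]
  apply Finset.sum_le_sum_of_subset_of_nonneg
  · intro k hk
    obtain ⟨n, hn, rfl⟩ := Finset.mem_image.1 hk
    rw [Finset.mem_range] at hn ⊢
    have := Nat.mul_le_mul_left a (show n + 1 ≤ N from hn)
    omega
  · intro k _ _; exact hu k

/-- induction on the number of factors -/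
lemma seq_conv (m : ℕ) (a : ℕ → ℕ) (ha : ∀ r < m, 1 ≤ a r) (t : ℕ → ℕ → ℂ) (C : ℝ)
    (hC0 : 0 ≤ C) (hC : ∀ j k, ‖t j k‖ ≤ C) (c : ℕ → ℂ)
    (h1 : ∀ r < m, ∀ i, Tendsto (fun N : ℕ => (N : ℂ)⁻¹ * ∑ n ∈ range N,
      (∏ j ∈ range r, t j (a j * (n + 1))) * (t r (a r * (n + 1) + i) - t r (a r * (n + 1) + i + 1)))
      atTop (𝓝 0))
    (h2 : ∀ r < m, ∃ δ : ℕ → ℝ, Tendsto δ atTop (𝓝 0) ∧ ∀ L : ℕ,
      Tendsto (fun M : ℕ => (M : ℝ)⁻¹ * ∑ k ∈ range M, ‖((L + 1 : ℕ) : ℂ)⁻¹ * ∑ i ∈ range (L + 1), t r (k + i) - c r‖)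
        atTop (𝓝 (δ L))) :
    ∀ r ≤ m, Tendsto (fun N : ℕ => (N : ℂ)⁻¹ * ∑ n ∈ range N, ∏ j ∈ range r, t j (a j * (n + 1))) atTop
      (𝓝 (∏ j ∈ range r, c j)) := by
  intro r
  induction r with
  | zero =>
    intro _
    simp only [Finset.range_zero, Finset.prod_empty, Finset.sum_const, Finset.card_range, nsmul_eq_mul, mul_one]
    refine tendsto_const_nhds.congr' ?_
    filter_upwards [eventually_ge_atTop 1] with N hN
    have hNc : (N : ℂ) ≠ 0 := by
      have : N ≠ 0 := by omega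
      exact_mod_cast this
    rw [inv_mul_cancel₀ hNc]
  | succ r ih =>
    intro hr
    have ihr := ih (by omega)
    set B : ℕ → ℂ := fun n => ∏ j ∈ range r, t j (a j * (n + 1)) with hB
    have hBn : ∀ n, ‖B n‖ ≤ C ^ r := by
      intro n
      rw [hB]; simp only; rw [norm_prod]
      refine (Finset.prod_le_prod (fun j _ => norm_nonneg _) (fun j _ => hC j _)).trans ?_
      simp
    have hCr : 0 ≤ C ^ r := by positivity
    -- shifts
    have hsh : ∀ i, Tendsto (fun N : ℕ => (N : ℂ)⁻¹ * ∑ n ∈ range N,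
        B n * (t r (a r * (n + 1)) - t r (a r * (n + 1) + i))) atTop (𝓝 0) := by
      intro i
      induction i with
      | zero => simp
      | succ i ihi =>
        have := ihi.add (h1 r (by omega) i)
        rw [add_zero] at this
        refine this.congr fun N => ?_
        rw [← mul_add, ← Finset.sum_add_distrib]
        congr 1
        refine Finset.sum_congr rfl fun n _ => ?_
        simp only [hB]
        rw [← Nat.add_assoc]
        ring
    have hshL : ∀ L : ℕ, Tendsto (fun N : ℕ => (N : ℂ)⁻¹ * ∑ n ∈ range N,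
        B n * (t r (a r * (n + 1)) - ((L + 1 : ℕ) : ℂ)⁻¹ * ∑ i ∈ range (L + 1), t r (a r * (n + 1) + i)))
        atTop (𝓝 0) := by
      intro L
      have h3 : Tendsto (fun N : ℕ => ((L + 1 : ℕ) : ℂ)⁻¹ * ∑ i ∈ range (L + 1), ((N : ℂ)⁻¹ * ∑ n ∈ range N,
        B n * (t r (a r * (n + 1)) - t r (a r * (n + 1) + i)))) atTop (𝓝 0) := by
        have := (tendsto_finsetSum (range (L + 1)) (fun i _ => hsh i)).const_mul (((L + 1 : ℕ) : ℂ)⁻¹)
        simpa using this
      refine h3.congr fun N => ?_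
      have hL0 : ((L + 1 : ℕ) : ℂ) ≠ 0 := by exact_mod_cast Nat.succ_ne_zero L
      rw [← Finset.mul_sum, Finset.sum_comm, mul_left_comm]
      congr 1
      rw [Finset.mul_sum]
      refine Finset.sum_congr rfl fun n _ => ?_
      rw [← Finset.mul_sum, Finset.sum_sub_distrib, Finset.sum_const, Finset.card_range, nsmul_eq_mul]
      field_simp
    -- main estimate
    have hmain : Tendsto (fun N : ℕ => (N : ℂ)⁻¹ * ∑ n ∈ range N,
        B n * (t r (a r * (n + 1)) - c r)) atTop (𝓝 0) := by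
      obtain ⟨δ, hδ, hδL⟩ := h2 r (by omega)
      rw [tendsto_zero_iff_norm_tendsto_zero, Metric.tendsto_atTop]
      intro ε hε
      have hlim : Tendsto (fun L => C ^ r * (a r * δ L)) atTop (𝓝 0) := by
        have := (hδ.const_mul (a r : ℝ)).const_mul (C ^ r)
        simpa using this
      obtain ⟨L, hL⟩ := ((tendsto_order.1 hlim).2 (ε / 4) (by positivity)).exists
      have e1 := avg_sub (fun k => ‖((L + 1 : ℕ) : ℂ)⁻¹ * ∑ i ∈ range (L + 1), t r (k + i) - c r‖)
        (fun k => norm_nonneg _) (δ L) (hδL L) (a r) (ha r (by omega)) (ε / (4 * (C ^ r + 1))) (by positivity)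
      have e2 := (Metric.tendsto_atTop.1 (tendsto_zero_iff_norm_tendsto_zero.1 (hshL L))) (ε / 4) (by positivity)
      obtain ⟨N1, hN1⟩ := e2
      obtain ⟨N2, hN2⟩ := eventually_atTop.1 e1
      refine ⟨max N1 N2, fun N hN => ?_⟩
      have g1 := hN1 N (le_trans (le_max_left _ _) hN)
      have g2 := hN2 N (le_trans (le_max_right _ _) hN)
      rw [Real.dist_eq, sub_zero, abs_norm] at g1 ⊢
      have e3 : (N : ℂ)⁻¹ * ∑ n ∈ range N, B n * (t r (a r * (n + 1)) - c r) =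
          (N : ℂ)⁻¹ * ∑ n ∈ range N,
            B n * (t r (a r * (n + 1)) - ((L + 1 : ℕ) : ℂ)⁻¹ * ∑ i ∈ range (L + 1), t r (a r * (n + 1) + i)) +
          (N : ℂ)⁻¹ * ∑ n ∈ range N,
            B n * (((L + 1 : ℕ) : ℂ)⁻¹ * ∑ i ∈ range (L + 1), t r (a r * (n + 1) + i) - c r) := by
        rw [← mul_add, ← Finset.sum_add_distrib]
        congr 1
        refine Finset.sum_congr rfl fun n _ => ?_
        ring
      rw [e3]
      have e4 : ‖(N : ℂ)⁻¹ * ∑ n ∈ range N,
            B n * (((L + 1 : ℕ) : ℂ)⁻¹ * ∑ i ∈ range (L + 1), t r (a r * (n + 1) + i) - c r)‖ ≤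
          C ^ r * ((N : ℝ)⁻¹ * ∑ n ∈ range N,
            ‖((L + 1 : ℕ) : ℂ)⁻¹ * ∑ i ∈ range (L + 1), t r (a r * (n + 1) + i) - c r‖) := by
        rw [norm_mul, norm_inv, Complex.norm_natCast, mul_left_comm]
        apply mul_le_mul_of_nonneg_left _ (by positivity)
        rw [Finset.mul_sum]
        refine norm_sum_le_of_le _ fun n _ => ?_
        rw [norm_mul]
        exact mul_le_mul_of_nonneg_right (hBn n) (norm_nonneg _)
      have e5 : C ^ r * ((N : ℝ)⁻¹ * ∑ n ∈ range N,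
            ‖((L + 1 : ℕ) : ℂ)⁻¹ * ∑ i ∈ range (L + 1), t r (a r * (n + 1) + i) - c r‖) ≤
          C ^ r * (a r * δ L + ε / (4 * (C ^ r + 1))) := mul_le_mul_of_nonneg_left g2 hCr
      have e6 : C ^ r * (ε / (4 * (C ^ r + 1))) ≤ ε / 4 := by
        rw [mul_div_assoc', div_le_div_iff₀ (by positivity) (by positivity)]
        nlinarith
      calc _ ≤ _ := norm_add_le _ _
        _ < ε := by
          rw [mul_add] at e5
          linarith
    have hfin := hmain.add (ihr.mul_const (c r))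
    rw [zero_add] at hfin
    rw [Finset.prod_range_succ]
    refine hfin.congr fun N => ?_
    rw [mul_assoc, ← mul_add, Finset.sum_mul, ← Finset.sum_add_distrib]
    congr 1
    refine Finset.sum_congr rfl fun n _ => ?_
    rw [Finset.prod_range_succ]
    simp only [hB]
    ring

end Pool.Agent.V8H53.Ind
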