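import Pool.Agent.V8H53.Ind.Dyn
import Pool.Agent.V8H53.Ind.Seq

/-!
# Almost every thinning: convergence of the multiple averages of the induced map
-/

set_option autoImplicit false
set_option linter.unusedSectionVars false

open MeasureTheory Filter Topology Set Finset
open scoped ENNReal ComplexConjugate

namespace Pool.Agent.V8H53.Ind

open Pool.Agent.R205.PC (ex fx dd dd_meas dd_bound dd_approx Fresh)

variable {Y : Type*} [MeasurableSpace Y]

/-- the points which are kept -/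
def thin (ξ : Y → ℕ) (θ : Om) : Set Y := {y | θ (ξ y) = true}

lemma meas_thin {ξ : Y → ℕ} (hξ : Measurable ξ) (θ : Om) : MeasurableSet (thin ξ θ) := by
  have : thin ξ θ = ξ ⁻¹' {n | θ n = true} := rfl
  rw [this]
  exact hξ (MeasurableSet.of_discrete)

lemma Rl_ge (l : ℕ) (_hl : 1 ≤ l) : l ^ 10 ≤ Rl l := by
  unfold Rl Gl
  have h1 : l < 2 ^ (Nat.log 2 l + 1) := Nat.lt_pow_succ_log_self (by norm_num) l
  have h2 : l ≤ 2 * 2 ^ Nat.log 2 l + 1 := by rw [pow_succ] at h1; omega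
  calc l ^ 10 = l ^ 5 * (l ^ 4 * l) := by ring
    _ ≤ l ^ 5 * (l ^ 4 * (2 * 2 ^ Nat.log 2 l + 1)) := by gcongr

lemma Xv_eq {S : Y → Y} {ξ : Y → ℕ} {θ : Om} {y : Y}
    (hinf : (Set.ofPred fun s : ℕ => S^[s] y ∈ thin ξ θ).Infinite) (f : Y → ℂ) (M R : ℕ)
    (hR : Nat.nth (fun s => S^[s] y ∈ thin ξ θ) M < R) :
    Xv (cy S ξ y) (vy S f y) M R θ = f (S^[Nat.nth (fun s => S^[s] y ∈ thin ξ θ) M] y) := by
  classical
  have hc : ∀ s, cnt (cy S ξ y) θ s = Nat.count (fun s => S^[s] y ∈ thin ξ θ) s := by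
    intro s
    rw [Nat.count_eq_card_filter_range]
    unfold cnt
    congr 1
    exact Finset.filter_congr fun t _ => Iff.rfl
  unfold Xv
  rw [Finset.sum_eq_single (Nat.nth (fun s => S^[s] y ∈ thin ξ θ) M)]
  · rw [if_pos]
    · rfl
    · refine ⟨Nat.nth_mem_of_infinite hinf M, ?_⟩
      rw [hc, Nat.count_nth_of_infinite hinf]
  · intro s _ hne
    rw [if_neg]
    rintro ⟨h1, h2⟩
    rw [hc] at h2
    apply hne
    rw [← h2, Nat.nth_count]
    exact h1
  · intro h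
    exact absurd (Finset.mem_range.2 hR) h

lemma convert_seq {S : Y → Y} {ξ : Y → ℕ} {θ : Om} {y : Y} {α : ℝ} (hα : 0 < α)
    (hg : Gd S (thin ξ θ) α y) (a : ℕ → ℕ) (f : ℕ → Y → ℂ) (C : ℝ) (hC0 : 0 ≤ C)
    (hfC : ∀ j y, ‖f j y‖ ≤ C) (r i : ℕ)
    (h : Tendsto (fun l : ℕ => (1 / ((l ^ 8 : ℕ) : ℂ)) *
      ∑ n ∈ range (l ^ 8), Psi (cy S ξ y) a (fun j => vy S (f j) y) (vy S (f r) y) r i (Rl l) n θ)
      atTop (𝓝 0)) :
    Tendsto (fun N : ℕ => (N : ℂ)⁻¹ * ∑ n ∈ range N,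
      (∏ j ∈ range r, f j ((ind S (thin ξ θ))^[a j * (n + 1)] y)) *
        (f r ((ind S (thin ξ θ))^[a r * (n + 1) + i] y) - f r ((ind S (thin ξ θ))^[a r * (n + 1) + i + 1] y)))
      atTop (𝓝 0) := by
  set p : ℕ → Prop := fun s => S^[s] y ∈ thin ξ θ with hp
  apply fill_pow _ (C ^ r * (C + C))
  · intro n
    rw [norm_mul]
    refine mul_le_mul ?_ ?_ (norm_nonneg _) (by positivity)
    · rw [norm_prod]
      refine (Finset.prod_le_prod (fun j _ => norm_nonneg _) (fun j _ => hfC j _)).trans ?_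
      simp
    · exact (norm_sub_le _ _).trans (add_le_add (hfC _ _) (hfC _ _))
  -- a bound for the exponents
  obtain ⟨D, hD⟩ : ∃ D : ℕ, ∀ j ≤ r, a j ≤ D := by
    refine ⟨(range (r + 1)).sup a, fun j hj => ?_⟩
    exact Finset.le_sup (f := a) (Finset.mem_range.2 (by omega))
  obtain ⟨M1, hM1⟩ := eventually_atTop.1 ((tendsto_order.1 hg.freq).1 (α / 2) (by linarith))
  obtain ⟨B, hB⟩ := exists_nat_gt ((2 / α) * ((D : ℝ) + i + 2 + M1))
  refine h.congr' ?_
  filter_upwards [eventually_ge_atTop (B + 1)] with l hl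
  congr 1
  have hl1 : 1 ≤ l := by omega
  set Ms := (D + M1) * l ^ 8 + i + 2 with hMs
  have hMsM1 : M1 ≤ Ms := by
    have : 1 ≤ l ^ 8 := Nat.one_le_pow _ _ (by omega)
    have h3 : M1 ≤ M1 * l ^ 8 := Nat.le_mul_of_pos_right _ (by omega)
    have h4 : (D + M1) * l ^ 8 = D * l ^ 8 + M1 * l ^ 8 := by ring
    omega
  have hnth : Nat.nth p Ms < Rl l := by
    have h1 := hM1 Ms hMsM1
    have hpos : 0 < Nat.nth p Ms := by
      have h5 : 0 < Ms := by omega
      exact lt_of_le_of_lt (Nat.zero_le _) ((Nat.nth_strictMono hg.inf) h5)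
    have hpos' : (0:ℝ) < Nat.nth p Ms := by exact_mod_cast hpos
    rw [lt_div_iff₀ hpos'] at h1
    have h6 : (Nat.nth p Ms : ℝ) < (2 / α) * Ms := by
      rw [div_mul_eq_mul_div, lt_div_iff₀ hα]
      linarith
    have h7 : (Ms : ℝ) ≤ ((D : ℝ) + i + 2 + M1) * (l : ℝ) ^ 8 := by
      rw [hMs]
      push_cast
      have h8 : (1:ℝ) ≤ (l : ℝ) ^ 8 := one_le_pow₀ (by exact_mod_cast hl1)
      have h9 : (0:ℝ) ≤ i := Nat.cast_nonneg i
      nlinarith
    have h10 : (2 / α) * (Ms : ℝ) ≤ (B : ℝ) * (l : ℝ) ^ 8 := by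
      calc (2 / α) * (Ms : ℝ) ≤ (2 / α) * (((D : ℝ) + i + 2 + M1) * (l : ℝ) ^ 8) := by gcongr
        _ = ((2 / α) * ((D : ℝ) + i + 2 + M1)) * (l : ℝ) ^ 8 := by ring
        _ ≤ (B : ℝ) * (l : ℝ) ^ 8 := by gcongr
    have h11 : (B : ℝ) * (l : ℝ) ^ 8 ≤ (l : ℝ) ^ 10 := by
      have h12 : (B : ℝ) ≤ l := by
        have : B ≤ l := by omega
        exact_mod_cast this
      have h13 : (1:ℝ) ≤ l := by exact_mod_cast hl1
      have h14 : (B : ℝ) ≤ (l : ℝ) ^ 2 := by nlinarith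
      calc (B : ℝ) * (l : ℝ) ^ 8 ≤ (l : ℝ) ^ 2 * (l : ℝ) ^ 8 := by gcongr
        _ = (l : ℝ) ^ 10 := by ring
    have h15 : ((Nat.nth p Ms : ℕ) : ℝ) < ((l ^ 10 : ℕ) : ℝ) := by
      push_cast
      linarith
    have h16 : Nat.nth p Ms < l ^ 10 := by exact_mod_cast h15
    exact lt_of_lt_of_le h16 (Rl_ge l hl1)
  have hX : ∀ (u : Y → ℂ) (M : ℕ), M ≤ Ms → Xv (cy S ξ y) (vy S u y) M (Rl l) θ = u ((ind S (thin ξ θ))^[M] y) := by
    intro u M hM
    rw [Xv_eq hg.inf u M (Rl l), iter_ind S (thin ξ θ) y hg.mem hg.inf M]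
    exact lt_of_le_of_lt ((Nat.nth_monotone hg.inf) hM) hnth
  have hidx : ∀ j ≤ r, ∀ n < l ^ 8, ∀ e ≤ i + 1, a j * (n + 1) + e ≤ Ms := by
    intro j hj n hn e he
    have h1 : a j * (n + 1) ≤ D * l ^ 8 := Nat.mul_le_mul (hD j hj) hn
    have h4 : (D + M1) * l ^ 8 = D * l ^ 8 + M1 * l ^ 8 := by ring
    omega
  refine Finset.sum_congr rfl fun n hn => ?_
  rw [Finset.mem_range] at hn
  unfold Psi
  rw [hX (f r) (a r * (n + 1) + i) (hidx r le_rfl n hn i (by omega)),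
    hX (f r) (a r * (n + 1) + i + 1) (by have := hidx r le_rfl n hn (i + 1) le_rfl; omega)]
  congr 1
  refine Finset.prod_congr rfl fun j hj => ?_
  rw [Finset.mem_range] at hj
  exact hX (f j) _ (by have := hidx j (by omega) n hn 0 (by omega); omega)

/-- the block averages converge in the mean -/
lemma block_avg {μ : Measure Y} [IsProbabilityMeasure μ] {S : Y → Y} (hS : Ergodic S μ) {A : Set Y}
    (hA : MeasurableSet A) (hA0 : 0 < μ.real A) (F : Y → ℂ) (hF : Measurable F) (C : ℝ) (hC0 : 0 ≤ C)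
    (hC : ∀ y, ‖F y‖ ≤ C) :
    ∃ δ : ℕ → ℝ, Tendsto δ atTop (𝓝 0) ∧ ∀ᵐ y ∂(μ.restrict A), ∀ L : ℕ,
      Tendsto (fun M : ℕ => (M : ℝ)⁻¹ * ∑ k ∈ range M,
        ‖((L + 1 : ℕ) : ℂ)⁻¹ * ∑ i ∈ range (L + 1), F ((ind S A)^[k + i] y) -
          (μ.real A : ℂ)⁻¹ * ∫ y in A, F y ∂μ‖) atTop (𝓝 (δ L)) := by
  set c : ℂ := (μ.real A : ℂ)⁻¹ * ∫ y in A, F y ∂μ with hc
  have hTm := meas_ind hS.measurable hA
  have hcn : ‖c‖ ≤ (μ.real A)⁻¹ * C := by
    rw [hc, norm_mul, norm_inv, Complex.norm_real, Real.norm_eq_abs, abs_of_pos hA0]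
    have h1 := norm_setIntegral_le_of_norm_le_const (μ := μ) (s := A) (f := F) (C := C)
      (measure_lt_top μ A) (fun y _ => hC y)
    apply mul_le_mul_of_nonneg_left _ (by positivity)
    refine h1.trans ?_
    have : μ.real A ≤ 1 := measureReal_le_one
    nlinarith [measureReal_nonneg (μ := μ) (s := A)]
  set G : ℕ → Y → ℝ := fun L y => ‖((L + 1 : ℕ) : ℂ)⁻¹ * ∑ i ∈ range (L + 1), F ((ind S A)^[i] y) - c‖ with hG
  have mG : ∀ L, Measurable (G L) := fun L =>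
    ((((Finset.measurable_fun_sum _ fun i _ => hF.comp (hTm.iterate i)).const_mul _)).sub_const _).norm
  have nG : ∀ L y, G L y ≤ C + ‖c‖ := by
    intro L y
    refine (norm_sub_le _ _).trans (add_le_add ?_ le_rfl)
    rw [norm_mul, norm_inv, Complex.norm_natCast]
    have h1 : ‖∑ i ∈ range (L + 1), F ((ind S A)^[i] y)‖ ≤ ((L + 1 : ℕ) : ℝ) * C := by
      refine (norm_sum_le_of_le _ fun i _ => hC _).trans ?_
      rw [Finset.sum_const, Finset.card_range, nsmul_eq_mul]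
    have h2 : (0:ℝ) < ((L + 1 : ℕ) : ℝ) := by positivity
    rw [inv_mul_le_iff₀ h2]
    exact h1
  refine ⟨fun L => (μ.real A)⁻¹ * ∫ y in A, G L y ∂μ, ?_, ?_⟩
  · have h0 : Tendsto (fun L => ∫ y in A, G L y ∂μ) atTop (𝓝 (∫ y in A, (0:ℝ) ∂μ)) := by
      apply tendsto_integral_of_dominated_convergence (fun _ => C + ‖c‖)
      · intro L; exact (mG L).aestronglyMeasurable
      · exact integrable_const _
      · intro L
        refine Eventually.of_forall fun y => ?_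
        rw [Real.norm_eq_abs, abs_of_nonneg (norm_nonneg _)]
        exact nG L y
      · filter_upwards [ind_birk hS hA hA0 F hF C hC] with y hy
        have h1 := (hy.comp (tendsto_add_atTop_nat 1)).sub_const c
        rw [sub_self] at h1
        exact tendsto_zero_iff_norm_tendsto_zero.1 h1
    simp only [integral_zero] at h0
    have := h0.const_mul ((μ.real A)⁻¹)
    simpa using this
  · rw [ae_all_iff]
    intro L
    have h1 := ind_birk hS hA hA0 (fun y => (G L y : ℂ)) (Complex.measurable_ofReal.comp (mG L)) (C + ‖c‖) (by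
      intro y
      rw [Complex.norm_real, Real.norm_eq_abs, abs_of_nonneg (norm_nonneg _)]
      exact nG L y)
    filter_upwards [h1] with y hy
    have h2 := (Complex.continuous_re.tendsto _).comp hy
    have e1 : (((μ.real A : ℂ)⁻¹ * ∫ y in A, (G L y : ℂ) ∂μ)).re = (μ.real A)⁻¹ * ∫ y in A, G L y ∂μ := by
      rw [integral_complex_ofReal]
      rw [← Complex.ofReal_inv, ← Complex.ofReal_mul, Complex.ofReal_re]
    rw [e1] at h2
    refine h2.congr fun M => ?_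
    simp only [Function.comp]
    have e2 : ((M : ℂ)⁻¹ * ∑ k ∈ range M, (G L ((ind S A)^[k] y) : ℂ)) =
        (((M : ℝ)⁻¹ * ∑ k ∈ range M, G L ((ind S A)^[k] y) : ℝ) : ℂ) := by push_cast; ring
    rw [e2, Complex.ofReal_re]
    congr 1
    refine Finset.sum_congr rfl fun k _ => ?_
    simp only [hG]
    congr 3
    refine Finset.sum_congr rfl fun i _ => ?_
    rw [← Function.iterate_add_apply, Nat.add_comm]

end Pool.Agent.V8H53.Ind
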