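import Pool.Agent.V8H53.Ind.Prob

/-!
# Kept times and the pair estimate
-/

set_option autoImplicit false
set_option linter.unusedSectionVars false

open MeasureTheory Filter Topology Set Finset
open scoped ENNReal ComplexConjugate

namespace Pool.Agent.V8H53.Ind

variable (c : ℕ → ℕ)

/-- the number of kept times before `s` -/
def cnt (θ : Om) (s : ℕ) : ℕ := #{t ∈ range s | θ (c t) = true}

lemma cnt_mono (θ : Om) : Monotone (cnt c θ) := by
  intro a b h
  unfold cnt
  apply Finset.card_le_card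
  apply Finset.filter_subset_filter
  exact Finset.range_mono h

lemma cnt_lt (θ : Om) {s s' : ℕ} (h : s < s') (hk : θ (c s) = true) : cnt c θ s < cnt c θ s' := by
  unfold cnt
  apply Finset.card_lt_card
  rw [Finset.ssubset_iff_of_subset]
  · refine ⟨s, ?_, ?_⟩
    · rw [Finset.mem_filter, Finset.mem_range]; exact ⟨h, hk⟩
    · rw [Finset.mem_filter, Finset.mem_range]; rintro ⟨h1, _⟩; omega
  · apply Finset.filter_subset_filter
    exact Finset.range_mono h.le

lemma cnt_add_le (θ : Om) (s d : ℕ) : cnt c θ (s + d) ≤ cnt c θ s + d := by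
  induction d with
  | zero => simp
  | succ d ih =>
    have : cnt c θ (s + d + 1) ≤ cnt c θ (s + d) + 1 := by
      unfold cnt
      rw [Finset.range_add_one, Finset.filter_insert]
      split_ifs
      · exact Finset.card_insert_le _ _
      · omega
    rw [← Nat.add_assoc]
    omega

lemma cnt_congr {θ θ' : Om} {B s : ℕ} (hs : s ≤ B) (h : ∀ t < B, θ (c t) = θ' (c t)) :
    cnt c θ s = cnt c θ' s := by
  unfold cnt
  congr 1
  apply Finset.filter_congr
  intro t ht
  rw [Finset.mem_range] at ht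
  rw [h t (by omega)]

/-- the value of `h` at the kept time number `M`, if it comes before `R` -/
noncomputable def Xv (h : ℕ → ℂ) (M R : ℕ) (θ : Om) : ℂ :=
  ∑ s ∈ range R, if θ (c s) = true ∧ cnt c θ s = M then h s else 0

lemma one_norm (S : Finset ℕ) (h : ℕ → ℂ) (C : ℝ) (hC0 : 0 ≤ C) (hC : ∀ s, ‖h s‖ ≤ C) (P : ℕ → Prop)
    [DecidablePred P] (hP : ∀ s ∈ S, ∀ s' ∈ S, P s → P s' → s = s') :
    ‖∑ s ∈ S, if P s then h s else 0‖ ≤ C := by
  by_cases hex : ∃ s ∈ S, P s
  · obtain ⟨s, hs, hPs⟩ := hex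
    rw [Finset.sum_eq_single s]
    · rw [if_pos hPs]; exact hC s
    · intro t ht hts
      rw [if_neg]
      intro hPt
      exact hts (hP t ht s hs hPt hPs)
    · intro h1; exact absurd hs h1
  · push Not at hex
    rw [Finset.sum_eq_zero]
    · simpa using hC0
    · intro s hs
      rw [if_neg (hex s hs)]

lemma Xv_bdd (h : ℕ → ℂ) (C : ℝ) (hC0 : 0 ≤ C) (hC : ∀ s, ‖h s‖ ≤ C) (M R : ℕ) (θ : Om) :
    ‖Xv c h M R θ‖ ≤ C := by
  unfold Xv
  apply one_norm _ h C hC0 hC
  rintro s _ s' _ ⟨h1, h2⟩ ⟨h3, h4⟩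
  rcases lt_trichotomy s s' with hlt | heq | hgt
  · have := cnt_lt c θ hlt h1; omega
  · exact heq
  · have := cnt_lt c θ hgt h3; omega

lemma meas_cnt (s : ℕ) : Measurable (fun θ : Om => cnt c θ s) := by
  have : (fun θ : Om => cnt c θ s) = fun θ => ∑ t ∈ range s, (if θ (c t) = true then 1 else 0) := by
    ext θ; unfold cnt; rw [Finset.card_filter]
  rw [this]
  exact Finset.measurable_fun_sum _ (fun i _ => Measurable.ite (meas_bit _) measurable_const measurable_const)

lemma meas_Xv (h : ℕ → ℂ) (M R : ℕ) : Measurable (Xv c h M R) := by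
  unfold Xv
  refine Finset.measurable_fun_sum _ (fun s _ => ?_)
  refine Measurable.ite ?_ measurable_const measurable_const
  exact (meas_bit _).inter (meas_cnt c s (measurableSet_singleton M))

/-- functionals of the past of the kept time number `M0` -/
structure Past (M0 : ℕ) (CV : ℝ) (V : ℕ → Om → ℂ) : Prop where
  meas : ∀ B, Measurable (V B)
  bdd : ∀ B θ, ‖V B θ‖ ≤ CV
  dep : ∀ B θ θ', (∀ s < B, θ (c s) = θ' (c s)) → V B θ = V B θ'
  stab : ∀ B R θ, B ≤ R → M0 < cnt c θ B → V R θ = V B θ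

lemma past_X (h : ℕ → ℂ) (C : ℝ) (hC0 : 0 ≤ C) (hC : ∀ s, ‖h s‖ ≤ C) {M M0 : ℕ} (hM : M ≤ M0) :
    Past c M0 C (fun R θ => Xv c h M R θ) where
  meas B := meas_Xv c h M B
  bdd B θ := Xv_bdd c h C hC0 hC M B θ
  dep B θ θ' hθ := by
    unfold Xv
    refine Finset.sum_congr rfl fun s hs => ?_
    rw [Finset.mem_range] at hs
    rw [hθ s hs, cnt_congr c hs.le hθ]
  stab B R θ hBR hlt := by
    unfold Xv
    rw [← Finset.sum_range_add_sum_Ico _ hBR]
    convert add_zero _
    apply Finset.sum_eq_zero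
    intro s hs
    rw [Finset.mem_Ico] at hs
    rw [if_neg]
    rintro ⟨_, h2⟩
    have := cnt_mono c θ hs.1
    omega

lemma past_one (M0 : ℕ) : Past c M0 1 (fun _ _ => 1) where
  meas B := measurable_const
  bdd B θ := by simp
  dep B θ θ' _ := rfl
  stab B R θ _ _ := rfl

lemma past_mul {M0 : ℕ} {C1 C2 : ℝ} (h1 : 0 ≤ C1) {V1 V2 : ℕ → Om → ℂ} (p1 : Past c M0 C1 V1)
    (p2 : Past c M0 C2 V2) : Past c M0 (C1 * C2) (fun R θ => V1 R θ * V2 R θ) where
  meas B := (p1.meas B).mul (p2.meas B)
  bdd B θ := by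
    rw [norm_mul]
    exact mul_le_mul (p1.bdd B θ) (p2.bdd B θ) (norm_nonneg _) h1
  dep B θ θ' hθ := by simp only [p1.dep B θ θ' hθ, p2.dep B θ θ' hθ]
  stab B R θ hBR hlt := by simp only [p1.stab B R θ hBR hlt, p2.stab B R θ hBR hlt]

lemma past_sub {M0 : ℕ} {C1 C2 : ℝ} {V1 V2 : ℕ → Om → ℂ} (p1 : Past c M0 C1 V1)
    (p2 : Past c M0 C2 V2) : Past c M0 (C1 + C2) (fun R θ => V1 R θ - V2 R θ) where
  meas B := (p1.meas B).sub (p2.meas B)
  bdd B θ := (norm_sub_le _ _).trans (add_le_add (p1.bdd B θ) (p2.bdd B θ))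
  dep B θ θ' hθ := by simp only [p1.dep B θ θ' hθ, p2.dep B θ θ' hθ]
  stab B R θ hBR hlt := by simp only [p1.stab B R θ hBR hlt, p2.stab B R θ hBR hlt]

lemma past_conj {M0 : ℕ} {C1 : ℝ} {V1 : ℕ → Om → ℂ} (p1 : Past c M0 C1 V1) :
    Past c M0 C1 (fun R θ => conj (V1 R θ)) where
  meas B := Complex.continuous_conj.measurable.comp (p1.meas B)
  bdd B θ := by rw [Complex.norm_conj]; exact p1.bdd B θ
  dep B θ θ' hθ := by simp only [p1.dep B θ θ' hθ]
  stab B R θ hBR hlt := by simp only [p1.stab B R θ hBR hlt]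

lemma past_prod {M0 : ℕ} {C : ℝ} (hC : 0 ≤ C) (r : ℕ) (V : ℕ → ℕ → Om → ℂ)
    (hV : ∀ j < r, Past c M0 C (V j)) : Past c M0 (C ^ r) (fun R θ => ∏ j ∈ range r, V j R θ) := by
  induction r with
  | zero => simpa using past_one c M0
  | succ r ih =>
    have h1 := past_mul c (pow_nonneg hC r) (ih (fun j hj => hV j (by omega))) (hV r (by omega))
    simp only [Finset.prod_range_succ]
    rw [pow_succ]
    exact h1

lemma past_mono {M0 : ℕ} {C C' : ℝ} (h : C ≤ C') {V : ℕ → Om → ℂ} (p : Past c M0 C V) :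
    Past c M0 C' V where
  meas := p.meas
  bdd B θ := (p.bdd B θ).trans h
  dep := p.dep
  stab := p.stab

/-- the number of kept times before `s` outside `T` -/
def oc (T : Finset ℕ) (θ : Om) (s : ℕ) : ℕ := #{t ∈ range s \ T | θ (c t) = true}

lemma cnt_split (T : Finset ℕ) (θ : Om) {s : ℕ} (hT : T ⊆ range s) (hinj : Set.InjOn c T) :
    cnt c θ s = oc c T θ s + cE (T.image c) θ := by
  unfold cnt oc cE
  have e1 : #{i ∈ T.image c | θ i = true} = #{t ∈ T | θ (c t) = true} := by
    rw [Finset.filter_image, Finset.card_image_of_injOn]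
    intro a ha b hb hab
    simp only [Finset.coe_filter, Set.mem_ofPred_eq] at ha hb
    exact hinj ha.1 hb.1 hab
  rw [e1, ← Finset.card_union_of_disjoint]
  · congr 1
    rw [← Finset.filter_union, Finset.sdiff_union_of_subset hT]
  · apply Finset.disjoint_filter_filter
    exact Finset.sdiff_disjoint

lemma oc_lt (T : Finset ℕ) (θ : Om) {s s' : ℕ} (h : s < s') (hk : θ (c s) = true) (hs : s ∉ T) :
    oc c T θ s < oc c T θ s' := by
  unfold oc
  apply Finset.card_lt_card
  rw [Finset.ssubset_iff_of_subset]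
  · refine ⟨s, ?_, ?_⟩
    · rw [Finset.mem_filter, Finset.mem_sdiff, Finset.mem_range]; exact ⟨⟨h, hs⟩, hk⟩
    · rw [Finset.mem_filter, Finset.mem_sdiff, Finset.mem_range]; rintro ⟨⟨h1, _⟩, _⟩; omega
  · apply Finset.filter_subset_filter
    exact Finset.sdiff_subset_sdiff (Finset.range_mono h.le) (Finset.Subset.refl _)

lemma meas_oc (T : Finset ℕ) (s : ℕ) : Measurable (fun θ : Om => oc c T θ s) := by
  have : (fun θ : Om => oc c T θ s) = fun θ => ∑ t ∈ range s \ T, (if θ (c t) = true then 1 else 0) := by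
    ext θ; unfold oc; rw [Finset.card_filter]
  rw [this]
  exact Finset.measurable_fun_sum _ (fun i _ => Measurable.ite (meas_bit _) measurable_const measurable_const)

/-- the future part -/
noncomputable def Hf (T : Finset ℕ) (h : ℕ → ℂ) (M B' R : ℕ) (e : ℕ) (θ : Om) : ℂ :=
  ∑ s ∈ Finset.Ico B' R, if θ (c s) = true ∧ oc c T θ s + e = M + 1 then h s else 0

lemma Hf_bdd (T : Finset ℕ) (h : ℕ → ℂ) (C : ℝ) (hC0 : 0 ≤ C) (hC : ∀ s, ‖h s‖ ≤ C) (M B' R e : ℕ)
    (hT : ∀ t ∈ T, t < B') (θ : Om) : ‖Hf c T h M B' R e θ‖ ≤ C := by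
  unfold Hf
  apply one_norm _ h C hC0 hC
  rintro s hs s' hs' ⟨h1, h2⟩ ⟨h3, h4⟩
  rw [Finset.mem_Ico] at hs hs'
  rcases lt_trichotomy s s' with hlt | heq | hgt
  · have := oc_lt c T θ hlt h1 (fun hh => by have := hT s hh; omega)
    omega
  · exact heq
  · have := oc_lt c T θ hgt h3 (fun hh => by have := hT s' hh; omega)
    omega

lemma meas_Hf (T : Finset ℕ) (h : ℕ → ℂ) (M B' R e : ℕ) : Measurable (Hf c T h M B' R e) := by
  unfold Hf
  refine Finset.measurable_fun_sum _ (fun s _ => ?_)
  refine Measurable.ite ?_ measurable_const measurable_const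
  refine (meas_bit _).inter ?_
  exact ((meas_oc c T s).add_const e) (measurableSet_singleton (M + 1))

lemma Hf_inv (T : Finset ℕ) (h : ℕ → ℂ) (M B' R e : ℕ)
    (hT : ∀ t ∈ T, ∀ s < R, s ≠ t → c s ≠ c t) (hTB : ∀ t ∈ T, t < B') :
    Inv (T.image c) (Hf c T h M B' R e) := by
  intro i hi θ b
  obtain ⟨t, ht, rfl⟩ := Finset.mem_image.1 hi
  unfold Hf
  refine Finset.sum_congr rfl fun s hs => ?_
  rw [Finset.mem_Ico] at hs
  have h1 : c s ≠ c t := hT t ht s hs.2 (fun hh => by have := hTB t ht; omega)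
  have h2 : oc c T (Function.update θ (c t) b) s = oc c T θ s := by
    unfold oc
    congr 1
    apply Finset.filter_congr
    intro u hu
    rw [Finset.mem_sdiff, Finset.mem_range] at hu
    rw [Function.update_of_ne]
    exact hT t ht u (by omega) (fun hh => hu.2 (hh ▸ ht))
  rw [Function.update_of_ne h1, h2]

/-- the block which contains the kept time number `M0` -/
def Ev (G M0 b : ℕ) (θ : Om) : Prop := cnt c θ (b * G) ≤ M0 ∧ M0 < cnt c θ ((b + 1) * G)

instance (G M0 b : ℕ) (θ : Om) : Decidable (Ev c G M0 b θ) := by unfold Ev; infer_instance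

lemma Ev_unique (G M0 : ℕ) (θ : Om) {b b' : ℕ} (h : Ev c G M0 b θ) (h' : Ev c G M0 b' θ) : b = b' := by
  rcases lt_trichotomy b b' with hlt | heq | hgt
  · have h1 : (b + 1) * G ≤ b' * G := Nat.mul_le_mul_right G hlt
    have h2 := cnt_mono c θ h1
    unfold Ev at h h'
    omega
  · exact heq
  · have h1 : (b' + 1) * G ≤ b * G := Nat.mul_le_mul_right G hgt
    have h2 := cnt_mono c θ h1
    unfold Ev at h h'
    omega

lemma Ev_exists (G M0 : ℕ) (θ : Om) (Q : ℕ) (h : M0 < cnt c θ (Q * G)) : ∃ b < Q, Ev c G M0 b θ := by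
  induction Q with
  | zero => simp [cnt] at h
  | succ Q ih =>
    by_cases h1 : M0 < cnt c θ (Q * G)
    · obtain ⟨b, hb, hE⟩ := ih h1
      exact ⟨b, by omega, hE⟩
    · exact ⟨Q, by omega, ⟨by omega, h⟩⟩

lemma meas_Ev (G M0 b : ℕ) : MeasurableSet {θ | Ev c G M0 b θ} := by
  unfold Ev
  exact (measurableSet_le (meas_cnt c _) measurable_const).inter
    (measurableSet_lt measurable_const (meas_cnt c _))

variable (ν : Measure Bool) [IsProbabilityMeasure ν]

/-- the pair estimate -/
theorem pair (hp : 0 < pr ν) (hq : pr ν < 1) (G Q K M0 M : ℕ) (hK : 0 < K) (hM : M0 + 2 * G < M)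
    (hfr : ∀ b < Q, ∃ T : Finset ℕ, #T = K ∧ (∀ t ∈ T, (b + 1) * G ≤ t ∧ t < (b + 2) * G) ∧
      ∀ t ∈ T, ∀ s < (Q + 1) * G, s ≠ t → c s ≠ c t)
    (V : ℕ → Om → ℂ) (CV : ℝ) (hCV : 0 ≤ CV) (hV : Past c M0 CV V) (h : ℕ → ℂ) (C : ℝ) (hC0 : 0 ≤ C)
    (hC : ∀ s, ‖h s‖ ≤ C) :
    ‖∫ θ, V (Q * G) θ * (Xv c h M (Q * G) θ - Xv c h (M + 1) (Q * G) θ) ∂(PP ν)‖ ≤
      C * CV / Real.sqrt (K * (pr ν * (1 - pr ν))) := by
  classical
  set R := Q * G with hR
  choose! T hT1 hT2 hT3 using hfr
  have hTR : ∀ b < Q, ∀ t ∈ T b, ∀ s < R, s ≠ t → c s ≠ c t := by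
    intro b hb t ht s hs hst
    apply hT3 b hb t ht s _ hst
    have : Q * G ≤ (Q + 1) * G := Nat.mul_le_mul_right G (by omega)
    omega
  have hTinj : ∀ b < Q, Set.InjOn c (T b) := by
    intro b hb t ht s hs hst
    by_contra hne
    refine hT3 b hb s hs t ?_ hne hst
    have h1 := (hT2 b hb t ht).2
    have h2 : (b + 2) * G ≤ (Q + 1) * G := Nat.mul_le_mul_right G (by omega)
    omega
  set E : ℕ → Om → ℝ := fun b θ => if Ev c G M0 b θ then 1 else 0 with hE
  have mE : ∀ b, Measurable (E b) := fun b => Measurable.ite (meas_Ev c G M0 b) measurable_const measurable_const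
  -- the decomposition
  have hdec : ∀ θ, V R θ * (Xv c h M R θ - Xv c h (M + 1) R θ) =
      ∑ b ∈ range Q, ((E b θ : ℂ) * V ((b + 1) * G) θ) *
        (Hf c (T b) h M ((b + 2) * G) R (cE ((T b).image c) θ + 1) θ -
          Hf c (T b) h M ((b + 2) * G) R (cE ((T b).image c) θ) θ) := by
    intro θ
    by_cases hcase : M0 < cnt c θ R
    · obtain ⟨b, hb, hEv⟩ := Ev_exists c G M0 θ Q hcase
      have hBR : (b + 1) * G ≤ R := Nat.mul_le_mul_right G hb
      rw [Finset.sum_eq_single b]
      · have e1 : E b θ = 1 := if_pos hEv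
        rw [e1, Complex.ofReal_one, one_mul, hV.stab _ R θ hBR hEv.2]
        congr 1
        have hcomm : (b + 2) * G = b * G + 2 * G := by ring
        -- early times do not contribute
        have hearly : ∀ M', M ≤ M' → Xv c h M' R θ = ∑ s ∈ Finset.Ico ((b + 2) * G) R,
            if θ (c s) = true ∧ cnt c θ s = M' then h s else 0 := by
          intro M' hM'
          unfold Xv
          have hz : ∀ s < (b + 2) * G, ¬ (θ (c s) = true ∧ cnt c θ s = M') := by
            rintro s hs ⟨_, h2⟩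
            have h3 : cnt c θ s ≤ cnt c θ (b * G + 2 * G) := cnt_mono c θ (by omega)
            have h4 := cnt_add_le c θ (b * G) (2 * G)
            have h5 := hEv.1
            omega
          by_cases hle : (b + 2) * G ≤ R
          · rw [← Finset.sum_range_add_sum_Ico _ hle]
            rw [Finset.sum_eq_zero, zero_add]
            intro s hs
            rw [Finset.mem_range] at hs
            rw [if_neg (hz s hs)]
          · rw [Finset.Ico_eq_empty (by omega), Finset.sum_empty]
            apply Finset.sum_eq_zero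
            intro s hs
            rw [Finset.mem_range] at hs
            rw [if_neg (hz s (by omega))]
        rw [hearly M le_rfl, hearly (M + 1) (by omega)]
        have hsplit : ∀ s ∈ Finset.Ico ((b + 2) * G) R, cnt c θ s = oc c (T b) θ s + cE ((T b).image c) θ := by
          intro s hs
          rw [Finset.mem_Ico] at hs
          apply cnt_split c (T b) θ _ (hTinj b hb)
          intro t ht
          rw [Finset.mem_range]
          have := (hT2 b hb t ht).2
          omega
        congr 1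
        · unfold Hf
          refine Finset.sum_congr rfl fun s hs => ?_
          rw [hsplit s hs]
          congr 1
          rw [eq_iff_iff]
          constructor <;> rintro ⟨h1, h2⟩ <;> exact ⟨h1, by omega⟩
        · unfold Hf
          refine Finset.sum_congr rfl fun s hs => ?_
          rw [hsplit s hs]
      · intro b' _ hne
        have : E b' θ = 0 := if_neg (fun h' => hne (Ev_unique c G M0 θ h' hEv))
        rw [this]; simp
      · intro h1; exact absurd (Finset.mem_range.2 hb) h1
    · have hz : ∀ M', M ≤ M' → Xv c h M' R θ = 0 := by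
        intro M' hM'
        unfold Xv
        apply Finset.sum_eq_zero
        intro s hs
        rw [Finset.mem_range] at hs
        rw [if_neg]
        rintro ⟨_, h2⟩
        have := cnt_mono c θ hs.le
        omega
      rw [hz M le_rfl, hz (M + 1) (by omega), sub_self, mul_zero]
      symm
      apply Finset.sum_eq_zero
      intro b hb
      rw [Finset.mem_range] at hb
      have : E b θ = 0 := by
        apply if_neg
        intro h'
        have h1 : (b + 1) * G ≤ R := Nat.mul_le_mul_right G hb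
        have := cnt_mono c θ h1
        unfold Ev at h'
        omega
      rw [this]; simp
  simp_rw [hdec]
  have hC2 : 0 ≤ C / Real.sqrt (K * (pr ν * (1 - pr ν))) := by positivity
  -- measurability and bounds
  have mV : ∀ b, Measurable (fun θ => (E b θ : ℂ) * V ((b + 1) * G) θ) := fun b =>
    (Complex.measurable_ofReal.comp (mE b)).mul (hV.meas _)
  have nV : ∀ b θ, ‖(E b θ : ℂ) * V ((b + 1) * G) θ‖ ≤ CV * E b θ := by
    intro b θ
    rw [norm_mul, Complex.norm_real, Real.norm_eq_abs]
    have h1 := hV.bdd ((b + 1) * G) θ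
    have h2 : |E b θ| = E b θ := by
      rw [hE]; simp only; split_ifs <;> simp
    rw [h2]
    have h3 : 0 ≤ E b θ := by rw [hE]; simp only; split_ifs <;> simp
    nlinarith
  have nV' : ∀ b θ, ‖(E b θ : ℂ) * V ((b + 1) * G) θ‖ ≤ CV := by
    intro b θ
    refine (nV b θ).trans ?_
    have h3 : E b θ ≤ 1 := by rw [hE]; simp only; split_ifs <;> simp
    nlinarith
  have hHm : ∀ b e, Measurable (Hf c (T b) h M ((b + 2) * G) R e) := fun b e => meas_Hf c _ h M _ R e
  have hHb : ∀ b < Q, ∀ e θ, ‖Hf c (T b) h M ((b + 2) * G) R e θ‖ ≤ C := fun b hb e θ =>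
    Hf_bdd c (T b) h C hC0 hC M _ R e (fun t ht => (hT2 b hb t ht).2) θ
  have mterm : ∀ b, Measurable (fun θ => ((E b θ : ℂ) * V ((b + 1) * G) θ) *
        (Hf c (T b) h M ((b + 2) * G) R (cE ((T b).image c) θ + 1) θ -
          Hf c (T b) h M ((b + 2) * G) R (cE ((T b).image c) θ) θ)) := fun b =>
    (mV b).mul ((meas_idx (hHm b) ((meas_cE _).add_const 1)).sub (meas_idx (hHm b) (meas_cE _)))
  have hint : ∀ b ∈ range Q, Integrable (fun θ => ((E b θ : ℂ) * V ((b + 1) * G) θ) *
        (Hf c (T b) h M ((b + 2) * G) R (cE ((T b).image c) θ + 1) θ -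
          Hf c (T b) h M ((b + 2) * G) R (cE ((T b).image c) θ) θ)) (PP ν) := by
    intro b hb
    rw [Finset.mem_range] at hb
    refine Integrable.of_bound (mterm b).aestronglyMeasurable (CV * (C + C)) ?_
    filter_upwards with θ
    rw [norm_mul]
    refine mul_le_mul (nV' b θ) ?_ (norm_nonneg _) hCV
    exact (norm_sub_le _ _).trans (add_le_add (hHb b hb _ _) (hHb b hb _ _))
  rw [integral_finsetSum _ hint]
  have iE : ∀ b, Integrable (E b) (PP ν) := fun b =>
    Integrable.of_bound (mE b).aestronglyMeasurable 1 (Eventually.of_forall fun θ => by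
      rw [hE]; simp only; split_ifs <;> simp)
  have hone : ∀ b ∈ range Q, ‖∫ θ, ((E b θ : ℂ) * V ((b + 1) * G) θ) *
        (Hf c (T b) h M ((b + 2) * G) R (cE ((T b).image c) θ + 1) θ -
          Hf c (T b) h M ((b + 2) * G) R (cE ((T b).image c) θ) θ) ∂(PP ν)‖ ≤
        C / Real.sqrt (K * (pr ν * (1 - pr ν))) * (CV * ∫ θ, E b θ ∂(PP ν)) := by
    intro b hb
    rw [Finset.mem_range] at hb
    have hcard : #((T b).image c) = K := by
      rw [Finset.card_image_of_injOn (hTinj b hb), hT1 b hb]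
    have hVinv : Inv ((T b).image c) (fun θ => (E b θ : ℂ) * V ((b + 1) * G) θ) := by
      intro i hi θ bb
      obtain ⟨t, ht, rfl⟩ := Finset.mem_image.1 hi
      have hlow : ∀ s < (b + 1) * G, (Function.update θ (c t) bb) (c s) = θ (c s) := by
        intro s hs
        rw [Function.update_of_ne]
        have h1 := (hT2 b hb t ht).1
        have h2 : (b + 1) * G ≤ R := Nat.mul_le_mul_right G hb
        exact hTR b hb t ht s (by omega) (by omega)
      have h1 : V ((b + 1) * G) (Function.update θ (c t) bb) = V ((b + 1) * G) θ :=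
        hV.dep _ _ _ hlow
      have h2 : E b (Function.update θ (c t) bb) = E b θ := by
        rw [hE]
        simp only
        have h3 : Ev c G M0 b (Function.update θ (c t) bb) ↔ Ev c G M0 b θ := by
          unfold Ev
          have hbG : b * G ≤ (b + 1) * G := Nat.mul_le_mul_right G (by omega)
          rw [cnt_congr c hbG hlow, cnt_congr c le_rfl hlow]
        simp only [h3]
      simp only [h1, h2]
    have hs := smooth ν hp hq ((T b).image c) (by rw [hcard]; exact hK)
      (fun θ => (E b θ : ℂ) * V ((b + 1) * G) θ) (mV b) CV (nV' b) hVinv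
      (Hf c (T b) h M ((b + 2) * G) R) (hHm b) C (hHb b hb)
      (fun e => Hf_inv c (T b) h M _ R e (hTR b hb) (fun t ht => (hT2 b hb t ht).2))
    rw [hcard] at hs
    refine hs.trans ?_
    refine mul_le_mul_of_nonneg_left ?_ hC2
    rw [← integral_const_mul]
    apply integral_mono_of_nonneg (Eventually.of_forall fun θ => norm_nonneg _) ((iE b).const_mul CV)
      (Eventually.of_forall (nV b))
  refine (norm_sum_le_of_le _ hone).trans ?_
  rw [← Finset.mul_sum, ← Finset.mul_sum, ← integral_finsetSum _ (fun b _ => iE b)]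
  have hle : ∫ θ, ∑ b ∈ range Q, E b θ ∂(PP ν) ≤ 1 := by
    calc ∫ θ, ∑ b ∈ range Q, E b θ ∂(PP ν) ≤ ∫ θ, (1:ℝ) ∂(PP ν) := by
          apply integral_mono (integrable_finsetSum _ (fun b _ => iE b)) (integrable_const _)
          intro θ
          simp only
          by_cases hex : ∃ b ∈ range Q, Ev c G M0 b θ
          · obtain ⟨b, hb, hEv⟩ := hex
            rw [Finset.sum_eq_single b]
            · rw [hE]; simp only; rw [if_pos hEv]
            · intro b' _ hne
              exact if_neg (fun h' => hne (Ev_unique c G M0 θ h' hEv))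
            · intro h1; exact absurd hb h1
          · push Not at hex
            rw [Finset.sum_eq_zero]
            · exact zero_le_one
            · intro b hb
              exact if_neg (hex b hb)
      _ = 1 := by simp
  calc C / Real.sqrt (K * (pr ν * (1 - pr ν))) * (CV * ∫ θ, ∑ b ∈ range Q, E b θ ∂(PP ν))
      ≤ C / Real.sqrt (K * (pr ν * (1 - pr ν))) * (CV * 1) := by
        apply mul_le_mul_of_nonneg_left _ hC2
        exact mul_le_mul_of_nonneg_left hle hCV
    _ = C * CV / Real.sqrt (K * (pr ν * (1 - pr ν))) := by ring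

end Pool.Agent.V8H53.Ind
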