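import Pool.Agent.R205.PC.Dens

/-!
# A smoothing estimate for sums of independent bits
-/

set_option autoImplicit false
set_option linter.unusedSectionVars false

open MeasureTheory Filter Topology Set Finset
open scoped ENNReal ComplexConjugate

namespace Pool.Agent.V8H53.Ind

/-- the space of sequences of bits -/
abbrev Om : Type := ℕ → Bool

variable (ν : Measure Bool) [IsProbabilityMeasure ν]

/-- the product measure -/
noncomputable abbrev PP : Measure Om := Measure.infinitePi (fun _ : ℕ => ν)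

/-- the probability of `true` -/
noncomputable def pr : ℝ := ν.real {true}

lemma pr_nonneg : 0 ≤ pr ν := measureReal_nonneg
lemma pr_le : pr ν ≤ 1 := measureReal_le_one

lemma false_eq : ν.real {false} = 1 - pr ν := by
  have h : ({false} : Set Bool) = {true}ᶜ := by ext b; cases b <;> simp
  rw [h, probReal_compl_eq_one_sub (measurableSet_singleton _)]; rfl

lemma integral_bool {E : Type*} [NormedAddCommGroup E] [NormedSpace ℝ E] [CompleteSpace E]
    (g : Bool → E) : ∫ b, g b ∂ν = pr ν • g true + (1 - pr ν) • g false := by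
  rw [integral_fintype, Fintype.sum_bool, ← false_eq]
  · rfl
  · exact Integrable.of_finite

lemma resample (i : ℕ) (G : Om → ℂ) (hG : Measurable G) (C : ℝ) (hC : ∀ θ, ‖G θ‖ ≤ C) :
    ∫ θ, G θ ∂(PP ν) = ∫ θ, (pr ν • G (Function.update θ i true) +
      (1 - pr ν) • G (Function.update θ i false)) ∂(PP ν) := by
  have hmp : MeasurePreserving (fun p : Om × Bool => Function.update p.1 i p.2)
    ((PP ν).prod ν) (PP ν) := Pool.Agent.R205.PC.mp_update ν i
  have h1 : ∫ θ, G θ ∂(PP ν) = ∫ q, G (Function.update q.1 i q.2) ∂((PP ν).prod ν) := by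
    conv_lhs => rw [← hmp.map_eq]
    rw [integral_map hmp.measurable.aemeasurable hG.aestronglyMeasurable]
  rw [h1, integral_prod]
  · congr 1
    ext θ
    rw [integral_bool]
  · refine Integrable.of_bound (hG.comp hmp.measurable).aestronglyMeasurable C ?_
    filter_upwards with q
    exact hC _

lemma resampleR (i : ℕ) (G : Om → ℝ) (hG : Measurable G) (C : ℝ) (hC : ∀ θ, |G θ| ≤ C) :
    ∫ θ, G θ ∂(PP ν) = ∫ θ, (pr ν * G (Function.update θ i true) +
      (1 - pr ν) * G (Function.update θ i false)) ∂(PP ν) := by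
  have hmp : MeasurePreserving (fun p : Om × Bool => Function.update p.1 i p.2)
    ((PP ν).prod ν) (PP ν) := Pool.Agent.R205.PC.mp_update ν i
  have h1 : ∫ θ, G θ ∂(PP ν) = ∫ q, G (Function.update q.1 i q.2) ∂((PP ν).prod ν) := by
    conv_lhs => rw [← hmp.map_eq]
    rw [integral_map hmp.measurable.aemeasurable hG.aestronglyMeasurable]
  rw [h1, integral_prod]
  · congr 1
    ext θ
    rw [integral_bool]
    simp
  · refine Integrable.of_bound (hG.comp hmp.measurable).aestronglyMeasurable C ?_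
    filter_upwards with q
    rw [Real.norm_eq_abs]
    exact hC _

/-- the number of true bits in `F` -/
def cE (F : Finset ℕ) (θ : Om) : ℕ := #{i ∈ F | θ i = true}

/-- the centred bit -/
noncomputable def cb (i : ℕ) (θ : Om) : ℝ := (if θ i = true then 1 else 0) - pr ν

lemma cE_erase (F : Finset ℕ) {i : ℕ} (hi : i ∈ F) (θ : Om) :
    cE F θ = cE (F.erase i) θ + (if θ i = true then 1 else 0) := by
  unfold cE
  rw [← Finset.insert_erase hi, Finset.filter_insert, Finset.erase_insert (Finset.notMem_erase _ _)]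
  split_ifs with h
  · rw [Finset.card_insert_of_notMem]
    simp
  · simp

lemma cE_update (F : Finset ℕ) {i : ℕ} (hi : i ∉ F) (θ : Om) (b : Bool) :
    cE F (Function.update θ i b) = cE F θ := by
  unfold cE
  congr 1
  apply Finset.filter_congr
  intro j hj
  have : j ≠ i := fun h => hi (h ▸ hj)
  rw [Function.update_of_ne this]

lemma cE_upd (F : Finset ℕ) {i : ℕ} (hi : i ∈ F) (θ : Om) (b : Bool) :
    cE F (Function.update θ i b) = cE (F.erase i) θ + (if b = true then 1 else 0) := by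
  rw [cE_erase F hi, cE_update _ (Finset.notMem_erase _ _), Function.update_self]

lemma meas_bit (i : ℕ) : MeasurableSet {θ : Om | θ i = true} := by
  have h : Measurable (fun θ : Om => θ i) := measurable_pi_apply i
  exact h (measurableSet_singleton true)

lemma meas_cb (i : ℕ) : Measurable (cb ν i) := by
  unfold cb
  exact (Measurable.ite (meas_bit i) measurable_const measurable_const).sub_const _

lemma meas_cE (F : Finset ℕ) : Measurable (cE F) := by
  have : cE F = fun θ => ∑ i ∈ F, (if θ i = true then 1 else 0) := by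
    ext θ; unfold cE; rw [Finset.card_filter]
  rw [this]
  exact Finset.measurable_fun_sum _ (fun i _ => Measurable.ite (meas_bit i) measurable_const measurable_const)

lemma cb_le (i : ℕ) (θ : Om) : |cb ν i θ| ≤ 1 := by
  unfold cb
  have h1 := pr_nonneg ν
  have h2 := pr_le ν
  split_ifs <;> rw [abs_le] <;> constructor <;> linarith

/-- invariance under a change of the bits in `F` -/
def Inv {α : Type*} (F : Finset ℕ) (G : Om → α) : Prop :=
  ∀ i ∈ F, ∀ θ b, G (Function.update θ i b) = G θ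

lemma meas_idx {H : ℕ → Om → ℂ} (hH : ∀ e, Measurable (H e)) {k : Om → ℕ} (hk : Measurable k) :
    Measurable (fun θ => H (k θ) θ) := by
  have h1 : Measurable (fun p : ℕ × Om => H p.1 p.2) := measurable_from_prod_countable_right hH
  exact h1.comp (hk.prodMk measurable_id)

/-- second moment of the sum of the centred bits -/
lemma sq_sum (F : Finset ℕ) (W : Om → ℝ) (hW : Measurable W) (C : ℝ) (hC : ∀ θ, |W θ| ≤ C)
    (hWF : Inv F W) :
    ∫ θ, W θ * (∑ i ∈ F, cb ν i θ) ^ 2 ∂(PP ν) = (#F : ℝ) * (pr ν * (1 - pr ν)) * ∫ θ, W θ ∂(PP ν) := by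
  have hC0 : 0 ≤ C := (abs_nonneg _).trans (hC (fun _ => true))
  have hint : ∀ i j : ℕ, Integrable (fun θ => W θ * (cb ν i θ * cb ν j θ)) (PP ν) := by
    intro i j
    refine Integrable.of_bound (hW.mul ((meas_cb ν i).mul (meas_cb ν j))).aestronglyMeasurable C ?_
    filter_upwards with θ
    rw [Real.norm_eq_abs, abs_mul, abs_mul]
    have h1 := cb_le ν i θ
    have h2 := cb_le ν j θ
    calc |W θ| * (|cb ν i θ| * |cb ν j θ|) ≤ C * (1 * 1) := by
          apply mul_le_mul (hC θ) _ (by positivity) hC0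
          exact mul_le_mul h1 h2 (abs_nonneg _) zero_le_one
      _ = C := by ring
  have hdiag : ∀ i ∈ F, ∫ θ, W θ * (cb ν i θ * cb ν i θ) ∂(PP ν) =
      (pr ν * (1 - pr ν)) * ∫ θ, W θ ∂(PP ν) := by
    intro i hi
    rw [resampleR ν i (fun θ => W θ * (cb ν i θ * cb ν i θ)) (hW.mul ((meas_cb ν i).mul (meas_cb ν i))) C, ← integral_const_mul]
    · congr 1
      ext θ
      rw [hWF i hi, hWF i hi]
      unfold cb
      simp only [Function.update_self]
      simp
      ring
    · intro θ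
      rw [abs_mul, abs_mul]
      have h1 := cb_le ν i θ
      calc |W θ| * (|cb ν i θ| * |cb ν i θ|) ≤ C * (1 * 1) := by
            apply mul_le_mul (hC θ) _ (by positivity) hC0
            exact mul_le_mul h1 h1 (abs_nonneg _) zero_le_one
        _ = C := by ring
  have hoff : ∀ i ∈ F, ∀ j, j ≠ i → ∫ θ, W θ * (cb ν i θ * cb ν j θ) ∂(PP ν) = 0 := by
    intro i hi j hj
    rw [resampleR ν i (fun θ => W θ * (cb ν i θ * cb ν j θ)) (hW.mul ((meas_cb ν i).mul (meas_cb ν j))) C]
    · have : ∀ θ : Om, pr ν * (W (Function.update θ i true) * (cb ν i (Function.update θ i true) *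
          cb ν j (Function.update θ i true))) +
          (1 - pr ν) * (W (Function.update θ i false) * (cb ν i (Function.update θ i false) *
          cb ν j (Function.update θ i false))) = 0 := by
        intro θ
        rw [hWF i hi, hWF i hi]
        unfold cb
        simp only [Function.update_self, Function.update_of_ne hj]
        simp
        ring
      simp only [this, integral_zero]
    · intro θ
      rw [abs_mul, abs_mul]
      have h1 := cb_le ν i θ
      have h2 := cb_le ν j θ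
      calc |W θ| * (|cb ν i θ| * |cb ν j θ|) ≤ C * (1 * 1) := by
            apply mul_le_mul (hC θ) _ (by positivity) hC0
            exact mul_le_mul h1 h2 (abs_nonneg _) zero_le_one
        _ = C := by ring
  have e1 : ∀ θ, W θ * (∑ i ∈ F, cb ν i θ) ^ 2 = ∑ i ∈ F, ∑ j ∈ F, W θ * (cb ν i θ * cb ν j θ) := by
    intro θ
    rw [sq, Finset.sum_mul_sum, Finset.mul_sum]
    refine Finset.sum_congr rfl fun i _ => ?_
    rw [Finset.mul_sum]
  simp_rw [e1]
  rw [integral_finsetSum _ (fun i _ => integrable_finsetSum _ (fun j _ => hint i j))]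
  simp_rw [integral_finsetSum _ (fun j _ => hint _ j)]
  have e2 : ∀ i ∈ F, ∑ j ∈ F, ∫ θ, W θ * (cb ν i θ * cb ν j θ) ∂(PP ν) =
      (pr ν * (1 - pr ν)) * ∫ θ, W θ ∂(PP ν) := by
    intro i hi
    rw [← Finset.add_sum_erase _ _ hi, hdiag i hi, Finset.sum_eq_zero, add_zero]
    intro j hj
    exact hoff i hi j (Finset.ne_of_mem_erase hj)
  rw [Finset.sum_congr rfl e2, Finset.sum_const, nsmul_eq_mul]
  ring

/-- integration by parts in one bit -/
lemma parts (F : Finset ℕ) {i : ℕ} (hi : i ∈ F) (V : Om → ℂ) (hV : Measurable V) (CV : ℝ)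
    (hCV : ∀ θ, ‖V θ‖ ≤ CV) (hVF : Inv F V) (H : ℕ → Om → ℂ) (hH : ∀ e, Measurable (H e)) (CH : ℝ)
    (hCH : ∀ e θ, ‖H e θ‖ ≤ CH) (hHF : ∀ e, Inv F (H e)) :
    ∫ θ, V θ * ((cb ν i θ : ℂ) * ((pr ν : ℂ) * H (cE F θ + 1) θ + (1 - pr ν : ℂ) * H (cE F θ) θ)) ∂(PP ν) =
      (pr ν * (1 - pr ν) : ℂ) * ∫ θ, V θ * (H (cE F θ + 1) θ - H (cE F θ) θ) ∂(PP ν) := by
  have hp0 := pr_nonneg ν
  have hp1 := pr_le ν
  have hCV0 : 0 ≤ CV := (norm_nonneg _).trans (hCV (fun _ => true))
  have hCH0 : 0 ≤ CH := (norm_nonneg _).trans (hCH 0 (fun _ => true))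
  have m1 : Measurable (fun θ => H (cE F θ + 1) θ) := meas_idx hH ((meas_cE F).add_const 1)
  have m0 : Measurable (fun θ => H (cE F θ) θ) := meas_idx hH (meas_cE F)
  have mcb : Measurable (fun θ => (cb ν i θ : ℂ)) := Complex.measurable_ofReal.comp (meas_cb ν i)
  have mL : Measurable (fun θ => V θ * ((cb ν i θ : ℂ) * ((pr ν : ℂ) * H (cE F θ + 1) θ +
      (1 - pr ν : ℂ) * H (cE F θ) θ))) :=
    hV.mul (mcb.mul ((m1.const_mul _).add (m0.const_mul _)))
  have mR : Measurable (fun θ => V θ * (H (cE F θ + 1) θ - H (cE F θ) θ)) := hV.mul (m1.sub m0)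
  have nL : ∀ θ, ‖V θ * ((cb ν i θ : ℂ) * ((pr ν : ℂ) * H (cE F θ + 1) θ +
      (1 - pr ν : ℂ) * H (cE F θ) θ))‖ ≤ CV * (1 * (CH + CH)) := by
    intro θ
    rw [norm_mul, norm_mul, Complex.norm_real, Real.norm_eq_abs]
    refine mul_le_mul (hCV θ) ?_ (by positivity) hCV0
    refine mul_le_mul (cb_le ν i θ) ?_ (norm_nonneg _) zero_le_one
    refine (norm_add_le _ _).trans (add_le_add ?_ ?_)
    · rw [norm_mul, Complex.norm_real, Real.norm_eq_abs, abs_of_nonneg hp0]
      have := hCH (cE F θ + 1) θ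
      have h2 := norm_nonneg (H (cE F θ + 1) θ)
      nlinarith
    · rw [norm_mul]
      have h3 : ‖(1 - pr ν : ℂ)‖ ≤ 1 := by
        have : (1 - pr ν : ℂ) = ((1 - pr ν : ℝ) : ℂ) := by push_cast; ring
        rw [this, Complex.norm_real, Real.norm_eq_abs, abs_of_nonneg (by linarith)]
        linarith
      have := hCH (cE F θ) θ
      have h2 := norm_nonneg (H (cE F θ) θ)
      have h4 := norm_nonneg (1 - pr ν : ℂ)
      nlinarith
  have nR : ∀ θ, ‖V θ * (H (cE F θ + 1) θ - H (cE F θ) θ)‖ ≤ CV * (CH + CH) := by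
    intro θ
    rw [norm_mul]
    refine mul_le_mul (hCV θ) ?_ (norm_nonneg _) hCV0
    exact (norm_sub_le _ _).trans (add_le_add (hCH _ _) (hCH _ _))
  rw [resample ν i _ mL _ nL, resample ν i _ mR _ nR, ← integral_const_mul]
  congr 1
  ext θ
  simp only [cE_upd F hi, hVF i hi, hHF _ i hi]
  unfold cb
  simp only [Function.update_self]
  simp
  ring

/-- the smoothing estimate -/
theorem smooth (hp : 0 < pr ν) (hq : pr ν < 1) (F : Finset ℕ) (hF : 0 < #F) (V : Om → ℂ)
    (hV : Measurable V) (CV : ℝ)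
    (hCV : ∀ θ, ‖V θ‖ ≤ CV) (hVF : Inv F V) (H : ℕ → Om → ℂ) (hH : ∀ e, Measurable (H e)) (CH : ℝ)
    (hCH : ∀ e θ, ‖H e θ‖ ≤ CH) (hHF : ∀ e, Inv F (H e)) :
    ‖∫ θ, V θ * (H (cE F θ + 1) θ - H (cE F θ) θ) ∂(PP ν)‖ ≤
      CH / Real.sqrt (#F * (pr ν * (1 - pr ν))) * ∫ θ, ‖V θ‖ ∂(PP ν) := by
  have hCV0 : 0 ≤ CV := (norm_nonneg _).trans (hCV (fun _ => true))
  have hCH0 : 0 ≤ CH := (norm_nonneg _).trans (hCH 0 (fun _ => true))
  have hq' : 0 < 1 - pr ν := by linarith
  have hpq : 0 < pr ν * (1 - pr ν) := mul_pos hp hq'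
  have hK : (0:ℝ) < #F := by exact_mod_cast hF
  have m1 : Measurable (fun θ => H (cE F θ + 1) θ) := meas_idx hH ((meas_cE F).add_const 1)
  have m0 : Measurable (fun θ => H (cE F θ) θ) := meas_idx hH (meas_cE F)
  set Q : Om → ℂ := fun θ => (pr ν : ℂ) * H (cE F θ + 1) θ + (1 - pr ν : ℂ) * H (cE F θ) θ with hQ
  have mQ : Measurable Q := (m1.const_mul _).add (m0.const_mul _)
  have nQ : ∀ θ, ‖Q θ‖ ≤ CH := by
    intro θ
    rw [hQ]
    simp only
    refine (norm_add_le _ _).trans ?_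
    rw [norm_mul, norm_mul, Complex.norm_real, Real.norm_eq_abs, abs_of_pos hp]
    have h3 : ‖(1 - pr ν : ℂ)‖ = 1 - pr ν := by
      have : (1 - pr ν : ℂ) = ((1 - pr ν : ℝ) : ℂ) := by push_cast; ring
      rw [this, Complex.norm_real, Real.norm_eq_abs, abs_of_pos hq']
    rw [h3]
    have h1 := hCH (cE F θ + 1) θ
    have h2 := hCH (cE F θ) θ
    nlinarith
  set S : Om → ℝ := fun θ => ∑ i ∈ F, cb ν i θ with hS
  have mS : Measurable S := Finset.measurable_fun_sum _ (fun i _ => meas_cb ν i)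
  have nS : ∀ θ, |S θ| ≤ #F := by
    intro θ
    refine (Finset.abs_sum_le_sum_abs _ _).trans ?_
    refine (Finset.sum_le_sum (fun i _ => cb_le ν i θ)).trans ?_
    simp
  have hcb : ∀ i, Measurable (fun θ => (cb ν i θ : ℂ)) := fun i =>
    Complex.measurable_ofReal.comp (meas_cb ν i)
  -- summation over the bits
  have hsum : ∫ θ, V θ * ((S θ : ℂ) * Q θ) ∂(PP ν) =
      (#F : ℂ) * (pr ν * (1 - pr ν) : ℂ) * ∫ θ, V θ * (H (cE F θ + 1) θ - H (cE F θ) θ) ∂(PP ν) := by
    have e1 : ∀ θ, V θ * ((S θ : ℂ) * Q θ) = ∑ i ∈ F, V θ * ((cb ν i θ : ℂ) * Q θ) := by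
      intro θ
      rw [hS]
      simp only
      rw [Complex.ofReal_sum, Finset.sum_mul, Finset.mul_sum]
    simp_rw [e1]
    rw [integral_finsetSum]
    · rw [Finset.sum_congr rfl (fun i hi => parts ν F hi V hV CV hCV hVF H hH CH hCH hHF),
        Finset.sum_const, nsmul_eq_mul]
      ring
    · intro i _
      refine Integrable.of_bound (hV.mul ((hcb i).mul mQ)).aestronglyMeasurable (CV * (1 * CH)) ?_
      filter_upwards with θ
      rw [norm_mul, norm_mul, Complex.norm_real, Real.norm_eq_abs]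
      refine mul_le_mul (hCV θ) ?_ (by positivity) hCV0
      exact mul_le_mul (cb_le ν i θ) (nQ θ) (norm_nonneg _) zero_le_one
  set lam : ℝ := Real.sqrt (#F * (pr ν * (1 - pr ν))) with hlam
  have hKpq : 0 < (#F : ℝ) * (pr ν * (1 - pr ν)) := mul_pos hK hpq
  have hlam0 : 0 < lam := Real.sqrt_pos.2 hKpq
  have hlam2 : lam ^ 2 = #F * (pr ν * (1 - pr ν)) := Real.sq_sqrt hKpq.le
  have mVn : Measurable (fun θ => ‖V θ‖) := hV.norm
  have hVn : ∀ θ, |‖V θ‖| ≤ CV := fun θ => by rw [abs_of_nonneg (norm_nonneg _)]; exact hCV θ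
  have hVnF : Inv F (fun θ => ‖V θ‖) := fun i hi θ b => by simp only [hVF i hi]
  have hsq := sq_sum ν F (fun θ => ‖V θ‖) mVn CV hVn hVnF
  have iV : Integrable (fun θ => ‖V θ‖) (PP ν) :=
    Integrable.of_bound mVn.aestronglyMeasurable CV (Eventually.of_forall fun θ => by
      rw [Real.norm_eq_abs]; exact hVn θ)
  have iVS2 : Integrable (fun θ => ‖V θ‖ * (S θ) ^ 2) (PP ν) := by
    refine Integrable.of_bound (mVn.mul (mS.pow_const 2)).aestronglyMeasurable (CV * (#F)^2) ?_
    filter_upwards with θ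
    rw [Real.norm_eq_abs, abs_mul, abs_pow]
    refine mul_le_mul (hVn θ) ?_ (by positivity) hCV0
    exact pow_le_pow_left₀ (abs_nonneg _) (nS θ) 2
  have hVS : ∫ θ, ‖V θ‖ * |S θ| ∂(PP ν) ≤ lam * ∫ θ, ‖V θ‖ ∂(PP ν) := by
    calc ∫ θ, ‖V θ‖ * |S θ| ∂(PP ν)
        ≤ ∫ θ, (‖V θ‖ * (S θ) ^ 2 / (2 * lam) + lam / 2 * ‖V θ‖) ∂(PP ν) := by
          apply integral_mono
          · refine Integrable.of_bound (mVn.mul (mS.abs)).aestronglyMeasurable (CV * (#F)) ?_
            filter_upwards with θ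
            rw [Real.norm_eq_abs, abs_mul, abs_abs]
            exact mul_le_mul (hVn θ) (nS θ) (abs_nonneg _) hCV0
          · exact (iVS2.div_const _).add (iV.const_mul _)
          · intro θ
            simp only
            have h1 : |S θ| ≤ (S θ) ^ 2 / (2 * lam) + lam / 2 := by
              have h2 : (S θ) ^ 2 / (2 * lam) + lam / 2 - |S θ| = (|S θ| - lam) ^ 2 / (2 * lam) := by
                field_simp
                rw [sub_sq, sq_abs]; ring
              have h3 : 0 ≤ (|S θ| - lam) ^ 2 / (2 * lam) := by positivity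
              linarith
            calc ‖V θ‖ * |S θ| ≤ ‖V θ‖ * ((S θ) ^ 2 / (2 * lam) + lam / 2) :=
                  mul_le_mul_of_nonneg_left h1 (norm_nonneg _)
              _ = ‖V θ‖ * (S θ) ^ 2 / (2 * lam) + lam / 2 * ‖V θ‖ := by ring
      _ = (∫ θ, ‖V θ‖ * (S θ) ^ 2 ∂(PP ν)) / (2 * lam) + lam / 2 * ∫ θ, ‖V θ‖ ∂(PP ν) := by
          rw [integral_add (iVS2.div_const _) (iV.const_mul _), integral_div, integral_const_mul]
      _ = lam * ∫ θ, ‖V θ‖ ∂(PP ν) := by
          rw [hsq, ← hlam2]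
          field_simp
          ring
  have hL : ‖∫ θ, V θ * ((S θ : ℂ) * Q θ) ∂(PP ν)‖ ≤ CH * (lam * ∫ θ, ‖V θ‖ ∂(PP ν)) := by
    refine (norm_integral_le_integral_norm _).trans ?_
    calc ∫ θ, ‖V θ * ((S θ : ℂ) * Q θ)‖ ∂(PP ν) ≤ ∫ θ, CH * (‖V θ‖ * |S θ|) ∂(PP ν) := by
          refine integral_mono_of_nonneg (Eventually.of_forall fun θ => norm_nonneg _) ?_ ?_
          · apply Integrable.const_mul
            refine Integrable.of_bound (mVn.mul (mS.abs)).aestronglyMeasurable (CV * (#F)) ?_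
            filter_upwards with θ
            rw [Real.norm_eq_abs, abs_mul, abs_abs]
            exact mul_le_mul (hVn θ) (nS θ) (abs_nonneg _) hCV0
          · refine Eventually.of_forall fun θ => ?_
            simp only
            rw [norm_mul, norm_mul, Complex.norm_real, Real.norm_eq_abs]
            have := nQ θ
            have h1 : 0 ≤ ‖V θ‖ * |S θ| := by positivity
            nlinarith
      _ = CH * ∫ θ, ‖V θ‖ * |S θ| ∂(PP ν) := integral_const_mul _ _
      _ ≤ CH * (lam * ∫ θ, ‖V θ‖ ∂(PP ν)) := mul_le_mul_of_nonneg_left hVS hCH0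
  rw [hsum, norm_mul] at hL
  have hnorm : ‖(#F : ℂ) * (pr ν * (1 - pr ν) : ℂ)‖ = lam ^ 2 := by
    rw [hlam2]
    have : (#F : ℂ) * (pr ν * (1 - pr ν) : ℂ) = (((#F : ℝ) * (pr ν * (1 - pr ν)) : ℝ) : ℂ) := by
      push_cast; ring
    rw [this, Complex.norm_real, Real.norm_eq_abs, abs_of_pos hKpq]
  rw [hnorm] at hL
  have h5 : CH / lam * ∫ θ, ‖V θ‖ ∂(PP ν) = (CH * (lam * ∫ θ, ‖V θ‖ ∂(PP ν))) / lam ^ 2 := by
    field_simp
  rw [h5, le_div_iff₀ (by positivity), mul_comm]
  exact hL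

end Pool.Agent.V8H53.Ind
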